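import Pool.Agent.R545.Lc.Defs
import Pool.Agent.H333R2.Col.Main

/-!
# Finite-state graph properties are decidable in polynomial time on graphs with splits
-/

namespace Pool.Agent.R545.Lc

open Pool.Agent.H622R2 Pool.Agent.NPC Pool.Agent.H333R2.Col

/-! ### The algorithm -/

section Alg

variable (adj : ℕ → ℕ → Bool) (n : ℕ)

/-- The rows of `u` and `v` agree outside of `B`. -/
def sameRow (B : List ℕ) (u v : ℕ) : Bool :=
  (List.range n).all fun w => decide (w ∈ B) || !(adj u w ^^ adj v w)

/-- Representatives of the rows. -/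
def reps (K : ℕ) (B : List ℕ) : List ℕ := nubCut (sameRow adj n B) K B

/-- The label of a vertex: the index of the first representative with the same row. -/
def lab (K : ℕ) (B : List ℕ) (v : ℕ) : ℕ :=
  (((reps adj n K B).zipIdx.filter (fun p => sameRow adj n B p.1 v)).head?.getD (0, 0)).2

/-- The codes of transitions. -/
abbrev Code := List ℕ × List ℕ × List (List Bool) × List ℕ × List ℕ

/-- The code of the transition that joins two parts. -/
def code (K : ℕ) (B B1 B2 T1 T2 : List ℕ) : Code :=
  (T1, T2, (List.range K).map (fun a => (List.range K).map fun b =>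
      adj ((reps adj n K B1).getD a 0) ((reps adj n K B2).getD b 0)),
    (List.range K).map (fun a => lab adj n K B ((reps adj n K B1).getD a 0)),
    (List.range K).map (fun a => lab adj n K B ((reps adj n K B2).getD a 0)))

/-- Look up the value of a code in a table. -/
def lkp (tbl : List (Code × List ℕ)) (c : Code) : List ℕ :=
  ((tbl.filter (fun e => decide (e.1 = c))).head?.map Prod.snd).getD []

/-- The state of a part that is not split. -/
def leafSt (q0 : ℕ) (B : List ℕ) : List ℕ := if B.length = 1 then [q0] else []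

/-- The state of the part of level `r` containing `v`. -/
def stAt (k t K q0 : ℕ) (tbl : List (Code × List ℕ)) (tab : List (List ℕ)) (r v : ℕ) : List ℕ :=
  (split adj n k t (part adj n k t (below n r) v)).elim
    (leafSt q0 (part adj n k t (below n r) v))
    (fun p => lkp tbl (code adj n K (part adj n k t (below n r) v) p.1 p.2
      (tab.getD (p.1.head?.getD 0) []) (tab.getD (p.2.head?.getD 0) [])))

/-- The states of all levels, starting from the finest. -/
def sts (k t K q0 : ℕ) (tbl : List (Code × List ℕ)) : List (List ℕ) :=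
  (List.range n).reverse.foldl
    (fun tab r => (List.range n).map fun v => stAt adj n k t K q0 tbl tab r v)
    ((List.range n).map fun v => leafSt q0 (part adj n k t (List.range n) v))

end Alg

/-- The test. -/
def stTest (k t K q0 : ℕ) (tbl : List (Code × List ℕ)) (accL : List ℕ) (b0 : Bool)
    (M : List (List Bool)) : Bool :=
  if M.length = 0 then b0
  else ((sts (adjB M) M.length k t K q0 tbl).getD 0 []).any (fun q => decide (q ∈ accL))

/-! ### Labels -/

section Labels

variable {adj : ℕ → ℕ → Bool} {n : ℕ}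

theorem sameRow_iff {B : List ℕ} {u v : ℕ} :
    sameRow adj n B u v = true ↔ ∀ w < n, w ∉ B → adj u w = adj v w := by
  unfold sameRow
  rw [List.all_eq_true]
  constructor
  · intro h w hw hwB
    have := h w (List.mem_range.mpr hw)
    simp only [hwB, decide_false, Bool.false_or] at this
    revert this
    cases adj u w <;> cases adj v w <;> simp
  · intro h w hw
    rw [List.mem_range] at hw
    by_cases hwB : w ∈ B
    · simp [hwB]
    · simp [hwB, h w hw hwB]

theorem reps_length {K : ℕ} {B : List ℕ} : (reps adj n K B).length ≤ K := nubCut_length_le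

theorem reps_sub {K : ℕ} {B : List ℕ} {u : ℕ} (h : u ∈ reps adj n K B) : u ∈ B :=
  Pool.Agent.H333R2.Col.mem_of_mem_nubCut h

theorem reps_complete {t : ℕ} {B : List ℕ} (hB : rankLe adj n t B = true) {v : ℕ} (hv : v ∈ B) :
    ∃ u ∈ reps adj n (2 ^ t) B, sameRow adj n B u v = true := by
  refine nubCut_complete (fun s => sameRow_iff.mpr fun w _ _ => rfl) ?_ hv
  intro l' hl' hp
  unfold rankLe at hB
  rw [List.any_eq_true] at hB
  obtain ⟨R, -, hR⟩ := hB
  rw [List.all_eq_true] at hR
  have hR' : ∀ v, ∃ c, v ∈ B → c ∈ cube t ∧ ∀ w < n, w ∉ B → adj v w = comb adj c R w := by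
    intro v
    by_cases hv : v ∈ B
    · have h := hR v hv
      unfold inSpan at h
      rw [List.any_eq_true] at h
      obtain ⟨c, hc, h⟩ := h
      rw [List.all_eq_true] at h
      refine ⟨c, fun _ => ⟨hc, fun w hw hwB => ?_⟩⟩
      have h1 := h w (List.mem_range.2 hw)
      simp only [hwB, decide_false, Bool.false_or] at h1
      revert h1
      cases adj v w <;> cases comb adj c R w <;> simp
    · exact ⟨[], fun h => absurd h hv⟩
  choose c hc using hR'
  have hnd : (l'.map c).Nodup := by
    rw [List.Nodup, List.pairwise_map]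
    refine hp.imp_of_mem ?_
    intro a b ha hb hab he
    have h1 := (hc a (hl' a ha)).2
    have h2 := (hc b (hl' b hb)).2
    have : sameRow adj n B b a = true := by
      rw [sameRow_iff]
      intro w hw hwB
      rw [h1 w hw hwB, h2 w hw hwB, he]
    rw [this] at hab
    exact absurd hab (by simp)
  have hsub : (l'.map c).toFinset ⊆ (cube t).toFinset := by
    intro x hx
    rw [List.mem_toFinset, List.mem_map] at hx
    obtain ⟨a, ha, rfl⟩ := hx
    rw [List.mem_toFinset]
    exact (hc a (hl' a ha)).1
  calc l'.length = (l'.map c).length := (List.length_map c).symm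
    _ = (l'.map c).toFinset.card := (List.toFinset_card_of_nodup hnd).symm
    _ ≤ (cube t).toFinset.card := Finset.card_le_card hsub
    _ ≤ (cube t).length := List.toFinset_card_le _
    _ = 2 ^ t := Pool.Agent.H333R2.Col.cube_length t

theorem lab_spec {K : ℕ} {B : List ℕ} {v : ℕ} (h : ∃ u ∈ reps adj n K B, sameRow adj n B u v = true) :
    (reps adj n K B).getD (lab adj n K B v) 0 ∈ reps adj n K B ∧
      sameRow adj n B ((reps adj n K B).getD (lab adj n K B v) 0) v = true := by
  obtain ⟨u, hu, huv⟩ := h
  obtain ⟨i, hi, rfl⟩ := List.mem_iff_getElem.1 hu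
  have hm : ((reps adj n K B)[i], i) ∈ (reps adj n K B).zipIdx.filter
      (fun p => sameRow adj n B p.1 v) := by
    rw [List.mem_filter, List.mem_zipIdx_iff_getElem?]
    exact ⟨by simp [hi], huv⟩
  unfold lab
  obtain ⟨a, l, hl⟩ := List.exists_cons_of_ne_nil (List.ne_nil_of_mem hm)
  have ha : a ∈ (reps adj n K B).zipIdx.filter (fun p => sameRow adj n B p.1 v) := by
    rw [hl]; exact List.mem_cons_self
  rw [List.mem_filter, List.mem_zipIdx_iff_getElem?] at ha
  rw [hl]
  simp only [List.head?_cons, Option.getD_some]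
  rw [List.getD_eq_getElem?_getD, ha.1]
  exact ⟨List.mem_of_getElem? ha.1, ha.2⟩

theorem lab_lt {K : ℕ} (hK : 0 < K) {B : List ℕ} {v : ℕ} : lab adj n K B v < K := by
  unfold lab
  cases h : (reps adj n K B).zipIdx.filter (fun p => sameRow adj n B p.1 v) with
  | nil => simpa using hK
  | cons a l =>
    have ha : a ∈ (reps adj n K B).zipIdx.filter (fun p => sameRow adj n B p.1 v) := by
      rw [h]; exact List.mem_cons_self
    rw [List.mem_filter, List.mem_zipIdx_iff_getElem?] at ha
    simp only [List.head?_cons, Option.getD_some]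
    have h1 := (List.getElem?_eq_some_iff.mp ha.1).1
    exact lt_of_lt_of_le h1 reps_length

theorem lab_congr {K : ℕ} {B : List ℕ} {u v : ℕ} (h : sameRow adj n B u v = true) :
    lab adj n K B u = lab adj n K B v := by
  unfold lab
  have : (fun p : ℕ × ℕ => sameRow adj n B p.1 u) = (fun p => sameRow adj n B p.1 v) := by
    funext p
    rw [Bool.eq_iff_iff, sameRow_iff, sameRow_iff]
    rw [sameRow_iff] at h
    constructor
    · intro h1 w hw hwB
      rw [h1 w hw hwB, h w hw hwB]
    · intro h1 w hw hwB
      rw [h1 w hw hwB, h w hw hwB]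
  rw [this]

theorem lab_single {K : ℕ} (hK : 0 < K) (v : ℕ) : lab adj n K [v] v = 0 := by
  unfold lab reps nubCut
  have h1 : ¬ K ≤ 0 := by omega
  have h2 : sameRow adj n [v] v v = true := sameRow_iff.mpr fun w _ _ => rfl
  simp [h1, h2]

theorem sameRow_mono {B B' : List ℕ} (hBB : ∀ u ∈ B, u ∈ B') {u v : ℕ}
    (h : sameRow adj n B u v = true) : sameRow adj n B' u v = true := by
  rw [sameRow_iff] at h ⊢
  exact fun w hw hwB => h w hw fun h' => hwB (hBB w h')

end Labels

/-! ### The table of transitions -/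

section Table

variable {K m : ℕ}

/-- The possible transitions. -/
abbrev Trans (K m : ℕ) := Fin m × Fin m × (Fin K → Fin K → Bool) × (Fin K → Fin K) × (Fin K → Fin K)

/-- The code of a transition. -/
def encC (x : Trans K m) : Code :=
  ([x.1.val], [x.2.1.val],
    (List.range K).map (fun a => (List.range K).map fun b =>
      if h : a < K ∧ b < K then x.2.2.1 ⟨a, h.1⟩ ⟨b, h.2⟩ else false),
    (List.range K).map (fun a => if h : a < K then (x.2.2.2.1 ⟨a, h⟩).val else 0),
    (List.range K).map (fun a => if h : a < K then (x.2.2.2.2 ⟨a, h⟩).val else 0))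

theorem encC_injective : Function.Injective (encC (K := K) (m := m)) := by
  intro x y h
  obtain ⟨x1, x2, x3, x4, x5⟩ := x
  obtain ⟨y1, y2, y3, y4, y5⟩ := y
  simp only [encC, Prod.mk.injEq, List.cons.injEq, and_true] at h
  obtain ⟨h1, h2, h3, h4, h5⟩ := h
  rw [List.map_inj_left] at h3 h4 h5
  have e1 : x1 = y1 := Fin.ext h1
  have e2 : x2 = y2 := Fin.ext h2
  have e3 : x3 = y3 := by
    funext a b
    have := h3 a.1 (List.mem_range.mpr a.2)
    rw [List.map_inj_left] at this
    have := this b.1 (List.mem_range.mpr b.2)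
    rwa [dif_pos ⟨a.2, b.2⟩, dif_pos ⟨a.2, b.2⟩] at this
  have e4 : x4 = y4 := by
    funext a
    have := h4 a.1 (List.mem_range.mpr a.2)
    rw [dif_pos a.2, dif_pos a.2] at this
    exact Fin.ext this
  have e5 : x5 = y5 := by
    funext a
    have := h5 a.1 (List.mem_range.mpr a.2)
    rw [dif_pos a.2, dif_pos a.2] at this
    exact Fin.ext this
  rw [e1, e2, e3, e4, e5]

variable (delta : Fin m → Fin m → (Fin K → Fin K → Prop) → (Fin K → Fin K) → (Fin K → Fin K) →
  Fin m)

/-- The value of a transition. -/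
def valC (x : Trans K m) : Fin m :=
  delta x.1 x.2.1 (fun a b => x.2.2.1 a b = true) x.2.2.2.1 x.2.2.2.2

/-- The table of all transitions. -/
noncomputable def tblC : List (Code × List ℕ) :=
  (Finset.univ : Finset (Trans K m)).toList.map (fun x => (encC x, [(valC delta x).val]))

theorem lkp_tblC (x : Trans K m) : lkp (tblC delta) (encC x) = [(valC delta x).val] := by
  have hm : (encC x, [(valC delta x).val]) ∈ (tblC delta).filter
      (fun e => decide (e.1 = encC x)) := by
    rw [List.mem_filter]
    exact ⟨List.mem_map.mpr ⟨x, by simp, rfl⟩, by simp⟩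
  unfold lkp
  obtain ⟨a, l, hl⟩ := List.exists_cons_of_ne_nil (List.ne_nil_of_mem hm)
  have ha : a ∈ (tblC delta).filter (fun e => decide (e.1 = encC x)) := by
    rw [hl]; exact List.mem_cons_self
  rw [List.mem_filter] at ha
  obtain ⟨ha1, ha2⟩ := ha
  unfold tblC at ha1
  rw [List.mem_map] at ha1
  obtain ⟨y, -, rfl⟩ := ha1
  rw [decide_eq_true_eq] at ha2
  have : y = x := encC_injective ha2
  subst this
  rw [hl]
  rfl

theorem lkp_nil1 (T2 : List ℕ) (S : List (List Bool)) (F1 F2 : List ℕ) :
    lkp (tblC delta) ([], T2, S, F1, F2) = [] := by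
  unfold lkp
  have : (tblC delta).filter (fun e => decide (e.1 = (([], T2, S, F1, F2) : Code))) = [] := by
    rw [List.filter_eq_nil_iff]
    intro a ha
    unfold tblC at ha
    rw [List.mem_map] at ha
    obtain ⟨y, -, rfl⟩ := ha
    simp [encC]
  rw [this]
  rfl

theorem lkp_nil2 (T1 : List ℕ) (S : List (List Bool)) (F1 F2 : List ℕ) :
    lkp (tblC delta) (T1, [], S, F1, F2) = [] := by
  unfold lkp
  have : (tblC delta).filter (fun e => decide (e.1 = ((T1, [], S, F1, F2) : Code))) = [] := by
    rw [List.filter_eq_nil_iff]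
    intro a ha
    unfold tblC at ha
    rw [List.mem_map] at ha
    obtain ⟨y, -, rfl⟩ := ha
    simp [encC]
  rw [this]
  rfl

end Table

/-! ### States -/

section States

variable {K m : ℕ} {chi : ∀ V : Type, SimpleGraph V → (V → Fin K) → Fin m}
  {delta : Fin m → Fin m → (Fin K → Fin K → Prop) → (Fin K → Fin K) → (Fin K → Fin K) → Fin m}

/-- The state of a glued graph is computed from the states of the two graphs. -/
def HD (chi : ∀ V : Type, SimpleGraph V → (V → Fin K) → Fin m)
    (delta : Fin m → Fin m → (Fin K → Fin K → Prop) → (Fin K → Fin K) → (Fin K → Fin K) →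
      Fin m) : Prop :=
  ∀ (X V W : Type) [Finite X] (G : SimpleGraph X) (G1 : SimpleGraph V)
      (G2 : SimpleGraph W) (i : V → X) (j : W → X) (l : X → Fin K) (l1 : V → Fin K)
      (l2 : W → Fin K) (s : Fin K → Fin K → Prop) (f1 f2 : Fin K → Fin K),
      Glued G G1 G2 i j (fun v w => s (l1 v) (l2 w)) → (∀ v, l (i v) = f1 (l1 v)) →
      (∀ w, l (j w) = f2 (l2 w)) → chi X G l = delta (chi V G1 l1) (chi W G2 l2) s f1 f2

theorem chi_iso (hd : HD chi delta) {V X : Type} [Finite X] (G : SimpleGraph X)
    (G1 : SimpleGraph V) (e : V ≃ X) (l : X → Fin K) (l1 : V → Fin K)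
    (hadj : ∀ u v, G.Adj (e u) (e v) ↔ G1.Adj u v) (hl : ∀ v, l (e v) = l1 v) :
    chi X G l = chi V G1 l1 := by
  have : Finite V := Finite.of_equiv X e.symm
  have h1 := hd X V Empty G G1 ⊥ e Empty.elim l l1 Empty.elim (fun _ _ => False) id id
    ⟨e.injective, fun x => x.elim, fun _ w => w.elim, fun x => Or.inl ⟨e.symm x, by simp⟩, hadj,
      fun u => u.elim, fun _ w => w.elim⟩ hl (fun w => w.elim)
  have h2 := hd V V Empty G1 G1 ⊥ id Empty.elim l1 l1 Empty.elim (fun _ _ => False) id id
    ⟨Function.injective_id, fun x => x.elim, fun _ w => w.elim, fun x => Or.inl ⟨x, rfl⟩,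
      fun _ _ => Iff.rfl, fun u => u.elim, fun _ w => w.elim⟩ (fun _ => rfl) (fun w => w.elim)
  exact h1.trans h2.symm

variable {adj : ℕ → ℕ → Bool} {n : ℕ}

/-- The graph on a part. -/
def ig (hadj : Good adj) (B : List ℕ) : SimpleGraph {u : ℕ // u ∈ B} where
  Adj x y := adj x.1 y.1 = true
  symm := ⟨fun x y h => by rw [hadj.symm]; exact h⟩
  loopless := ⟨fun x h => by rw [hadj.irrefl] at h; exact Bool.noConfusion h⟩

/-- The state of a part. -/
def stOf (chi : ∀ V : Type, SimpleGraph V → (V → Fin K) → Fin m) (hadj : Good adj) (n : ℕ)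
    (hK : 0 < K) (B : List ℕ) : Fin m :=
  chi {u : ℕ // u ∈ B} (ig hadj B) (fun u => ⟨lab adj n K B u.1, lab_lt hK⟩)

theorem stOf_join (hd : HD chi delta) (hadj : Good adj) (hK : 0 < K) {t : ℕ} (hKt : K = 2 ^ t)
    {B B1 B2 : List ℕ} (hn : ∀ v ∈ B, v < n)
    (hr1 : rankLe adj n t B1 = true) (hr2 : rankLe adj n t B2 = true)
    (hc : ∀ u, u ∈ B ↔ u ∈ B1 ∨ u ∈ B2) (hdis : ∀ u ∈ B1, u ∉ B2) :
    lkp (tblC delta) (code adj n K B B1 B2 [(stOf chi hadj n hK B1).val]
      [(stOf chi hadj n hK B2).val]) = [(stOf chi hadj n hK B).val] := by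
  set f1 : Fin K → Fin K := fun a =>
    ⟨lab adj n K B ((reps adj n K B1).getD a.1 0), lab_lt hK⟩ with hf1
  set f2 : Fin K → Fin K := fun a =>
    ⟨lab adj n K B ((reps adj n K B2).getD a.1 0), lab_lt hK⟩ with hf2
  set s : Fin K → Fin K → Bool := fun a b =>
    adj ((reps adj n K B1).getD a.1 0) ((reps adj n K B2).getD b.1 0) with hs
  have hcode : code adj n K B B1 B2 [(stOf chi hadj n hK B1).val]
      [(stOf chi hadj n hK B2).val] =
      encC (stOf chi hadj n hK B1, stOf chi hadj n hK B2, s, f1, f2) := by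
    unfold code encC
    simp only [Prod.mk.injEq, true_and]
    refine ⟨?_, ?_, ?_⟩
    · rw [List.map_inj_left]
      intro a ha
      rw [List.map_inj_left]
      intro b hb
      rw [dif_pos ⟨List.mem_range.mp ha, List.mem_range.mp hb⟩]
    · rw [List.map_inj_left]
      intro a ha
      rw [dif_pos (List.mem_range.mp ha)]
    · rw [List.map_inj_left]
      intro a ha
      rw [dif_pos (List.mem_range.mp ha)]
  rw [hcode, lkp_tblC]
  congr 2
  unfold valC
  symm
  have hfin : Finite {u : ℕ // u ∈ B} := B.finite_toSet.to_subtype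
  have hsp1 : ∀ v ∈ B1, (reps adj n K B1).getD (lab adj n K B1 v) 0 ∈ B1 ∧
      sameRow adj n B1 ((reps adj n K B1).getD (lab adj n K B1 v) 0) v = true := by
    intro v hv
    have h := lab_spec (K := K) (by rw [hKt]; exact reps_complete hr1 hv)
    exact ⟨reps_sub h.1, h.2⟩
  have hsp2 : ∀ v ∈ B2, (reps adj n K B2).getD (lab adj n K B2 v) 0 ∈ B2 ∧
      sameRow adj n B2 ((reps adj n K B2).getD (lab adj n K B2 v) 0) v = true := by
    intro v hv
    have h := lab_spec (K := K) (by rw [hKt]; exact reps_complete hr2 hv)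
    exact ⟨reps_sub h.1, h.2⟩
  refine hd _ _ _ (ig hadj B) (ig hadj B1) (ig hadj B2)
    (fun v => ⟨v.1, (hc _).mpr (Or.inl v.2)⟩) (fun w => ⟨w.1, (hc _).mpr (Or.inr w.2)⟩) _ _ _
    (fun a b => s a b = true) f1 f2 ?_ ?_ ?_
  · refine ⟨?_, ?_, ?_, ?_, ?_, ?_, ?_⟩
    · intro v w h
      have h' : v.1 = w.1 := congrArg (Subtype.val (p := fun u => u ∈ B)) h
      exact Subtype.ext h'
    · intro v w h
      have h' : v.1 = w.1 := congrArg (Subtype.val (p := fun u => u ∈ B)) h
      exact Subtype.ext h'
    · intro v w h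
      have h' : v.1 = w.1 := congrArg Subtype.val h
      exact hdis v.1 v.2 (h' ▸ w.2)
    · intro x
      rcases (hc x.1).mp x.2 with h | h
      · exact Or.inl ⟨⟨x.1, h⟩, rfl⟩
      · exact Or.inr ⟨⟨x.1, h⟩, rfl⟩
    · intro u v; exact Iff.rfl
    · intro u v; exact Iff.rfl
    · intro v w
      obtain ⟨h1, h2⟩ := hsp1 v.1 v.2
      obtain ⟨h3, h4⟩ := hsp2 w.1 w.2
      rw [sameRow_iff] at h2 h4
      have hw : w.1 < n := hn _ ((hc _).mpr (Or.inr w.2))
      have e1 := h2 w.1 hw (fun h => hdis _ h w.2)
      have e2 := h4 _ (hn _ ((hc _).mpr (Or.inl h1))) (hdis _ h1)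
      show adj v.1 w.1 = true ↔ adj _ _ = true
      rw [hadj.symm _ ((reps adj n K B2).getD _ 0), e2, hadj.symm w.1, e1]
  · intro v
    obtain ⟨h1, h2⟩ := hsp1 v.1 v.2
    exact Fin.ext (lab_congr (sameRow_mono (fun u hu => (hc u).mpr (Or.inl hu)) h2)).symm
  · intro v
    obtain ⟨h1, h2⟩ := hsp2 v.1 v.2
    exact Fin.ext (lab_congr (sameRow_mono (fun u hu => (hc u).mpr (Or.inr hu)) h2)).symm

theorem stOf_single (hd : HD chi delta) (hadj : Good adj) (hK : 0 < K) (v : ℕ) :
    stOf chi hadj n hK [v] = chi Unit ⊥ (fun _ => ⟨0, hK⟩) := by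
  have hfin : Finite {u : ℕ // u ∈ [v]} := [v].finite_toSet.to_subtype
  refine chi_iso hd _ _ ⟨fun _ => ⟨v, by simp⟩, fun _ => (), fun _ => rfl, ?_⟩ _ _ ?_ ?_
  · rintro ⟨x, hx⟩
    rw [List.mem_singleton] at hx
    exact Subtype.ext hx.symm
  · intro x y
    simp [ig]
  · intro x
    exact Fin.ext (lab_single hK v)

/-- The invariant of the algorithm. -/
def SInv (chi : ∀ V : Type, SimpleGraph V → (V → Fin K) → Fin m) (hadj : Good adj)
    (hK : 0 < K) (n k t : ℕ) (r : ℕ) (tab : List (List ℕ)) : Prop :=
  ∀ v < n, (tab.getD v [] = [] ∧ ¬ HasSplits k (gr adj n)) ∨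
    tab.getD v [] = [(stOf chi hadj n hK (part adj n k t (List.range r) v)).val]

theorem leaf_inv (hd : HD chi delta) (hadj : Good adj) (hK : 0 < K) {k : ℕ} (hk : 1 ≤ k)
    {l : List ℕ} {v : ℕ} (hv : v < n)
    (h : split adj n k (6 * k) (part adj n k (6 * k) l v) = none ∨ n ≤ l.length) :
    (leafSt (chi Unit ⊥ (fun _ => ⟨0, hK⟩)).val (part adj n k (6 * k) l v) = [] ∧
      ¬ HasSplits k (gr adj n)) ∨
    leafSt (chi Unit ⊥ (fun _ => ⟨0, hK⟩)).val (part adj n k (6 * k) l v) =
      [(stOf chi hadj n hK (part adj n k (6 * k) l v)).val] := by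
  unfold leafSt
  split_ifs with h1
  · right
    obtain ⟨a, ha⟩ := List.length_eq_one_iff.mp h1
    rw [ha, stOf_single hd hadj hK a]
  · left
    refine ⟨rfl, fun hs => h1 ?_⟩
    rw [part_leaf hadj hk hs hv h]
    rfl

theorem stAt_inv (hd : HD chi delta) (hadj : Good adj) (hK : 0 < K) {k : ℕ} (hk : 1 ≤ k)
    (hKk : K = 2 ^ (6 * k)) {r : ℕ} (hr : r < n) {tab : List (List ℕ)}
    (h : SInv chi hadj hK n k (6 * k) (r + 1) tab) :
    SInv chi hadj hK n k (6 * k) r ((List.range n).map fun v =>
      stAt adj n k (6 * k) K (chi Unit ⊥ (fun _ => ⟨0, hK⟩)).val (tblC delta) tab r v) := by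
  intro v hv
  rw [fn_getD hv]
  unfold stAt
  rw [fn_below hr.le]
  cases hsp : split adj n k (6 * k) (part adj n k (6 * k) (List.range r) v) with
  | none =>
    simp only [Option.elim_none]
    exact leaf_inv hd hadj hK hk hv (Or.inl hsp)
  | some p =>
    simp only [Option.elim_some]
    obtain ⟨h1, h2, hc1, hc2, hc, hdis⟩ :=
      part_split (l := List.range r) (l' := List.range (r + 1)) (by simp) hv hsp
    obtain ⟨-, hp1, hp2, hr1, hr2⟩ := split_spec hsp
    obtain ⟨hcan, hvm, hrk, -⟩ := part_basic (adj := adj) (n := n) (k := k) (t := 6 * k)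
      (List.range r) hv
    have hh1 : p.1.head?.getD 0 ∈ p.1 := by
      cases hp : p.1 with
      | nil => exact absurd hp hp1
      | cons a l => simp
    have hh2 : p.2.head?.getD 0 ∈ p.2 := by
      cases hp : p.2 with
      | nil => exact absurd hp hp2
      | cons a l => simp
    have hR1 := h _ (h1 _ hh1).1
    have hR2 := h _ (h2 _ hh2).1
    rw [(h1 _ hh1).2] at hR1
    rw [(h2 _ hh2).2] at hR2
    rcases hR1 with ⟨hR1, hns⟩ | hR1
    · left
      rw [hR1]
      exact ⟨lkp_nil1 _ _ _ _ _, hns⟩
    rcases hR2 with ⟨hR2, hns⟩ | hR2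
    · left
      rw [hR2]
      exact ⟨lkp_nil2 _ _ _ _ _, hns⟩
    right
    rw [hR1, hR2]
    exact stOf_join hd hadj hK hKk (fun u hu => List.mem_range.mp (hcan.subset hu)) hr1 hr2 hc hdis

theorem sts_fold (hd : HD chi delta) (hadj : Good adj) (hK : 0 < K) {k : ℕ} (hk : 1 ≤ k)
    (hKk : K = 2 ^ (6 * k)) (i : ℕ) : i ≤ n → ∀ tab, SInv chi hadj hK n k (6 * k) i tab →
      SInv chi hadj hK n k (6 * k) 0 ((List.range i).reverse.foldl (fun tab r =>
        (List.range n).map fun v => stAt adj n k (6 * k) K
          (chi Unit ⊥ (fun _ => ⟨0, hK⟩)).val (tblC delta) tab r v) tab) := by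
  induction i with
  | zero =>
    intro _ tab h
    simpa using h
  | succ i ih =>
    intro hi tab h
    rw [List.range_succ, List.reverse_append, List.reverse_singleton, List.singleton_append,
      List.foldl_cons]
    exact ih (by omega) _ (stAt_inv hd hadj hK hk hKk (by omega) h)

theorem sts_inv (hd : HD chi delta) (hadj : Good adj) (hK : 0 < K) {k : ℕ} (hk : 1 ≤ k)
    (hKk : K = 2 ^ (6 * k)) : SInv chi hadj hK n k (6 * k) 0
      (sts adj n k (6 * k) K (chi Unit ⊥ (fun _ => ⟨0, hK⟩)).val (tblC delta)) := by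
  refine sts_fold hd hadj hK hk hKk n le_rfl _ ?_
  intro v hv
  rw [fn_getD hv]
  exact leaf_inv hd hadj hK hk hv (Or.inr (by simp))

end States

/-! ### Polynomial time -/

section PolyTime

variable {α : Type} [TEnc α] {M : α → List (List Bool)}

attribute [local fun_prop] po_adjB po_range po_below

theorem po_sameRow {B : α → List ℕ} {u v : α → ℕ} (hM : Poly M) (hB : Poly B) (hu : Poly u)
    (hv : Poly v) : Poly (fun a => sameRow (adjB (M a)) (M a).length (B a) (u a) (v a)) := by
  unfold sameRow
  fun_prop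

attribute [local fun_prop] po_sameRow

theorem po_reps (K : ℕ) {B : α → List ℕ} (hM : Poly M) (hB : Poly B) :
    Poly (fun a => reps (adjB (M a)) (M a).length K (B a)) := by
  unfold reps
  exact po_nubCut (eqv := fun a => sameRow (adjB (M a)) (M a).length (B a))
    (by fun_prop) (NPC.Poly.const K) hB

attribute [local fun_prop] po_reps

theorem po_lab (K : ℕ) {B : α → List ℕ} {v : α → ℕ} (hM : Poly M) (hB : Poly B) (hv : Poly v) :
    Poly (fun a => lab (adjB (M a)) (M a).length K (B a) (v a)) := by
  unfold lab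
  fun_prop

attribute [local fun_prop] po_lab

theorem po_code (K : ℕ) {B B1 B2 T1 T2 : α → List ℕ} (hM : Poly M) (hB : Poly B) (hB1 : Poly B1)
    (hB2 : Poly B2) (hT1 : Poly T1) (hT2 : Poly T2) :
    Poly (fun a => code (adjB (M a)) (M a).length K (B a) (B1 a) (B2 a) (T1 a) (T2 a)) := by
  unfold code
  have hK : Poly (fun _ : α => List.range K) := NPC.Poly.const _
  refine NPC.Poly.pair hT1 (NPC.Poly.pair hT2 (NPC.Poly.pair ?_ (NPC.Poly.pair ?_ ?_)))
  · refine NPC.Poly.map hK ?_
    refine NPC.Poly.map (NPC.Poly.const _) ?_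
    fun_prop
  · refine NPC.Poly.map hK ?_
    fun_prop
  · refine NPC.Poly.map hK ?_
    fun_prop

theorem po_lkp (tbl : List (Code × List ℕ)) {c : α → Code} (hc : Poly c) :
    Poly (fun a => lkp tbl (c a)) := by
  unfold lkp
  have ht : Poly (fun _ : α => tbl) := NPC.Poly.const _
  fun_prop

theorem po_leafSt (q0 : ℕ) {B : α → List ℕ} (hB : Poly B) :
    Poly (fun a => leafSt q0 (B a)) := by
  unfold leafSt
  fun_prop

theorem po_stAt (k t K q0 : ℕ) (tbl : List (Code × List ℕ)) {tab : α → List (List ℕ)}
    {r v : α → ℕ} (hM : Poly M) (ht : Poly tab) (hr : Poly r) (hv : Poly v) :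
    Poly (fun a => stAt (adjB (M a)) (M a).length k t K q0 tbl (tab a) (r a) (v a)) := by
  have hp : Poly (fun a => part (adjB (M a)) (M a).length k t (below (M a).length (r a))
    (v a)) := poly_part hM (po_below hM hr) hv k t
  unfold stAt
  refine NPC.Poly.optElim
    (o := fun a => split (adjB (M a)) (M a).length k t
      (part (adjB (M a)) (M a).length k t (below (M a).length (r a)) (v a)))
    (h := fun a p => lkp tbl (code (adjB (M a)) (M a).length K
      (part (adjB (M a)) (M a).length k t (below (M a).length (r a)) (v a)) p.1 p.2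
      ((tab a).getD (p.1.head?.getD 0) []) ((tab a).getD (p.2.head?.getD 0) [])))
    (poly_split hM hp k t) (po_leafSt q0 hp) ?_
  refine po_lkp (α := α × List ℕ × List ℕ) tbl ?_
  exact po_code (α := α × List ℕ × List ℕ) K (by fun_prop) (hp.comp (by fun_prop)) (by fun_prop)
    (by fun_prop) (by fun_prop) (by fun_prop)

theorem sz_lkp (tbl : List (Code × List ℕ)) (c : Code) : sz (lkp tbl c) ≤ sz tbl + 1 := by
  unfold lkp
  cases h : (tbl.filter (fun e => decide (e.1 = c))) with
  | nil => simp [sz_list_nil]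
  | cons a l =>
    have ha : a ∈ tbl := List.mem_of_mem_filter (h ▸ List.mem_cons_self)
    have h1 := sz_le_of_mem ha
    simp only [List.head?_cons, Option.map_some, Option.getD_some]
    have h2 : sz a.2 ≤ sz a := by
      obtain ⟨a1, a2⟩ := a
      rw [sz_pair]
      show sz a2 ≤ _
      omega
    omega

theorem sz_leafSt (q0 : ℕ) (B : List ℕ) : sz (leafSt q0 B) ≤ sz [q0] + 1 := by
  unfold leafSt
  split_ifs
  · omega
  · rw [sz_list_nil]
    omega

theorem sz_stAt (adj : ℕ → ℕ → Bool) (n k t K q0 : ℕ) (tbl : List (Code × List ℕ))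
    (tab : List (List ℕ)) (r v : ℕ) :
    sz (stAt adj n k t K q0 tbl tab r v) ≤ sz tbl + sz [q0] + 1 := by
  unfold stAt
  cases split adj n k t (part adj n k t (below n r) v) with
  | none =>
    have := sz_leafSt q0 (part adj n k t (below n r) v)
    simp only [Option.elim_none]
    omega
  | some p =>
    simp only [Option.elim_some]
    exact (sz_lkp tbl _).trans (by omega)

theorem po_sts (k t K q0 : ℕ) (tbl : List (Code × List ℕ)) (hM : Poly M) :
    Poly (fun a => sts (adjB (M a)) (M a).length k t K q0 tbl) := by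
  obtain ⟨rM, hrM⟩ := length_le_poly hM
  unfold sts
  set C : ℕ := sz tbl + sz [q0] + 1 with hC
  refine NPC.Poly.foldl (l := fun a => (List.range (M a).length).reverse)
    (s := fun a => (List.range (M a).length).map fun v =>
      leafSt q0 (part (adjB (M a)) (M a).length k t (List.range (M a).length) v))
    (F := fun a tab r => (List.range (M a).length).map fun v =>
      stAt (adjB (M a)) (M a).length k t K q0 tbl tab r v)
    (NPC.Poly.reverse (po_range hM)) ?_ ?_
    (rM * (Polynomial.C C + Polynomial.C 1) + Polynomial.C 1) ?_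
  · refine NPC.Poly.map (F := fun a v => leafSt q0 (part (adjB (M a)) (M a).length k t
      (List.range (M a).length) v)) (po_range hM) ?_
    exact po_leafSt (α := α × ℕ) q0 (poly_part (α := α × ℕ) (by fun_prop)
      (po_range (by fun_prop)) (by fun_prop) k t)
  · refine NPC.Poly.map (α := α × List (List ℕ) × ℕ)
      (l := fun p => List.range (M p.1).length)
      (F := fun p v => stAt (adjB (M p.1)) (M p.1).length k t K q0 tbl p.2.1 p.2.2 v)
      (po_range (by fun_prop)) ?_
    exact po_stAt (α := (α × List (List ℕ) × ℕ) × ℕ) k t K q0 tbl (by fun_prop)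
      (by fun_prop) (by fun_prop) (by fun_prop)
  · intro a i _
    have key : ∀ T : ℕ → List ℕ, (∀ v, sz (T v) ≤ C) →
        sz ((List.range (M a).length).map T) ≤ (rM * (Polynomial.C C + Polynomial.C 1)
          + Polynomial.C 1).eval (sz a) := by
      intro T hT
      have h1 := sz_le_length_mul ((List.range (M a).length).map T) _ (by
        intro c hc
        rw [List.mem_map] at hc
        obtain ⟨v, _, rfl⟩ := hc
        exact hT v)
      refine h1.trans ?_
      rw [List.length_map, List.length_range]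
      simp only [Polynomial.eval_add, Polynomial.eval_mul, Polynomial.eval_C]
      have h4 := hrM a
      gcongr
    have hl : ∀ B, sz (leafSt q0 B) ≤ C := by
      intro B
      have := sz_leafSt q0 B
      omega
    cases h : (List.range (M a).length).reverse.take i using List.reverseRecOn with
    | nil => exact key _ fun v => hl _
    | append_singleton l r =>
      rw [List.foldl_append, List.foldl_cons, List.foldl_nil]
      exact key _ fun v => sz_stAt _ _ _ _ _ _ _ _ _ _

end PolyTime

theorem po_stTest (k t K q0 : ℕ) (tbl : List (Code × List ℕ)) (accL : List ℕ) (b0 : Bool) :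
    Poly (stTest k t K q0 tbl accL b0) := by
  have hM : Poly (fun M : List (List Bool) => M) := NPC.Poly.id
  have hT := po_sts k t K q0 tbl hM
  unfold stTest
  refine NPC.Poly.ite (by fun_prop) (NPC.Poly.const b0) ?_
  refine NPC.Poly.any (NPC.Poly.getD hT (NPC.Poly.const 0) (NPC.Poly.const [])) ?_
  exact NPC.Poly.dec_mem (by fun_prop) (NPC.Poly.const accL)

/-- A property of graphs that is determined by a state out of finitely many, such that the states
of glued graphs can be computed, and that implies the existence of splits, is decidable in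
polynomial time. -/
theorem inPP_of_finite_state (k m K : ℕ) (hk : 1 ≤ k) (hK : K = 2 ^ (6 * k))
    (Phi : ∀ V : Type, SimpleGraph V → Prop)
    (chi : ∀ V : Type, SimpleGraph V → (V → Fin K) → Fin m)
    (delta : Fin m → Fin m → (Fin K → Fin K → Prop) → (Fin K → Fin K) → (Fin K → Fin K) → Fin m)
    (hdelta : ∀ (X V W : Type) [Finite X] (G : SimpleGraph X) (G1 : SimpleGraph V)
      (G2 : SimpleGraph W) (i : V → X) (j : W → X) (l : X → Fin K) (l1 : V → Fin K)
      (l2 : W → Fin K) (s : Fin K → Fin K → Prop) (f1 f2 : Fin K → Fin K),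
      Glued G G1 G2 i j (fun v w => s (l1 v) (l2 w)) → (∀ v, l (i v) = f1 (l1 v)) →
      (∀ w, l (j w) = f2 (l2 w)) → chi X G l = delta (chi V G1 l1) (chi W G2 l2) s f1 f2)
    (acc : Fin m → Bool)
    (hacc : ∀ (V : Type) [Finite V] (G : SimpleGraph V) (l : V → Fin K),
      Phi V G ↔ acc (chi V G l) = true)
    (hs : ∀ (V : Type) [Finite V] (G : SimpleGraph V), Phi V G → HasSplits k G) :
    InPP (fun M : List (List Bool) => Phi (Fin M.length) (matGraph M)) := by
  classical
  have hK0 : 0 < K := by rw [hK]; positivity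
  have hd : HD chi delta := hdelta
  set q0 := chi Unit ⊥ (fun _ => ⟨0, hK0⟩) with hq0
  refine inPP_of (po_stTest k (6 * k) K q0.val (tblC delta)
    (((Finset.univ : Finset (Fin m)).toList.filter (fun q => acc q)).map Fin.val)
    (decide (Phi (Fin ([] : List (List Bool)).length) (matGraph [])))) ?_
  intro M
  unfold stTest
  by_cases hM : M.length = 0
  · rw [if_pos hM]
    rw [List.length_eq_zero_iff] at hM
    subst hM
    rw [decide_eq_true_eq]
  · rw [if_neg hM]
    have hn : 0 < M.length := Nat.pos_of_ne_zero hM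
    have hadj := fn_good M
    rw [← fn_gr M]
    have hinv := sts_inv (n := M.length) hd hadj hK0 hk hK 0 hn
    have hpart : part (adjB M) M.length k (6 * k) (List.range 0) 0 = List.range M.length := rfl
    rw [hpart] at hinv
    rcases hinv with ⟨h1, h2⟩ | h1
    · rw [h1]
      simp only [List.any_nil, Bool.false_eq_true, iff_false]
      exact fun h => h2 (hs _ _ h)
    · rw [h1]
      simp only [List.any_cons, List.any_nil, Bool.or_false, decide_eq_true_eq, List.mem_map,
        List.mem_filter, Finset.mem_toList, Finset.mem_univ, true_and]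
      have hfin : Finite {u : ℕ // u ∈ List.range M.length} :=
        (List.range M.length).finite_toSet.to_subtype
      have hiso : chi (Fin M.length) (gr (adjB M) M.length)
          (fun u => ⟨lab (adjB M) M.length K (List.range M.length) u.1, lab_lt hK0⟩) =
          stOf chi hadj M.length hK0 (List.range M.length) := by
        refine chi_iso hd _ _ ⟨fun x => ⟨x.1, List.mem_range.mp x.2⟩,
          fun x => ⟨x.1, List.mem_range.mpr x.2⟩, fun _ => rfl, fun _ => rfl⟩ _ _ ?_ ?_
        · intro u v
          simp only [gr, ig, Equiv.coe_fn_mk]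
          constructor
          · rintro ⟨-, h | h⟩
            · exact h
            · rw [hadj.symm]; exact h
          · intro h
            refine ⟨?_, Or.inl h⟩
            intro he
            have he' : u.1 = v.1 := congrArg Fin.val he
            rw [he', hadj.irrefl] at h
            exact Bool.noConfusion h
        · intro v
          rfl
      rw [hacc _ _ (fun u => ⟨lab (adjB M) M.length K (List.range M.length) u.1, lab_lt hK0⟩),
        hiso]
      constructor
      · intro h
        exact ⟨_, h, rfl⟩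
      · rintro ⟨q, hq, he⟩
        rwa [Fin.ext he] at hq

end Pool.Agent.R545.Lc
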