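import Pool.Agent.R545.Lc.Defs

/-!
# From a layout to a linear clique-width construction
-/

namespace Pool.Agent.R545.Lc

open Classical Pool.Agent.Helper856.Lcw

variable {V : Type}

/-- The graph `H` restricted to the set `A`, with the labels `l`, can be built. -/
def LBS (c : ℕ) (A : Set V) (H : SimpleGraph V) (l : V → Fin c) : Prop :=
  ∃ (W : Type) (G' : SimpleGraph W) (l' : W → Fin c) (e : W → V), LinBuilt c W G' l' ∧
    Function.Injective e ∧ Set.range e = A ∧ (∀ x y, G'.Adj x y ↔ H.Adj (e x) (e y)) ∧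
    ∀ x, l' x = l (e x)

theorem LBS.single {c : ℕ} (v : V) (H : SimpleGraph V) (l : V → Fin c) : LBS c {v} H l := by
  refine ⟨Unit, ⊥, fun _ => l v, fun _ => v, LinBuilt.single (l v), fun _ _ _ => rfl, ?_, ?_,
    fun _ => rfl⟩
  · ext x
    simp [eq_comm]
  · intro x y
    simp

theorem LBS.congr {c : ℕ} {A : Set V} {H H2 : SimpleGraph V} {l l2 : V → Fin c}
    (h : LBS c A H l) (h1 : ∀ u ∈ A, ∀ w ∈ A, (H.Adj u w ↔ H2.Adj u w))
    (h2 : ∀ u ∈ A, l u = l2 u) : LBS c A H2 l2 := by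
  obtain ⟨W, G', l', e, hb, he, hr, ha, hl⟩ := h
  have hmem : ∀ x, e x ∈ A := fun x => by rw [← hr]; exact ⟨x, rfl⟩
  refine ⟨W, G', l', e, hb, he, hr, fun x y => ?_, fun x => ?_⟩
  · rw [ha, h1 _ (hmem x) _ (hmem y)]
  · rw [hl, h2 _ (hmem x)]

theorem LBS.add {c : ℕ} {A : Set V} {H : SimpleGraph V} {l : V → Fin c} {v : V}
    (h : LBS c A H l) (hv : v ∉ A) (hn : ∀ u ∈ A, ¬ H.Adj u v) : LBS c (insert v A) H l := by
  obtain ⟨W, G', l', e, hb, he, hr, ha, hl⟩ := h
  have hmem : ∀ x, e x ∈ A := fun x => by rw [← hr]; exact ⟨x, rfl⟩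
  refine ⟨W ⊕ Unit, G' ⊕g (⊥ : SimpleGraph Unit), Sum.elim l' (fun _ => l v),
    Sum.elim e (fun _ => v),
    LinBuilt.union W Unit G' ⊥ l' (fun _ => l v) (Or.inr (by simp)) hb (LinBuilt.single (l v)),
    ?_, ?_, ?_, ?_⟩
  · rintro (x | x) (y | y) hxy
    · exact congrArg Sum.inl (he hxy)
    · exact absurd (by rw [← show e x = v from hxy]; exact hmem x) hv
    · exact absurd (by rw [show v = e y from hxy]; exact hmem y) hv
    · rfl
  · ext x
    constructor
    · rintro ⟨y | y, rfl⟩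
      · exact Or.inr (hmem y)
      · exact Or.inl rfl
    · rintro (rfl | hx)
      · exact ⟨Sum.inr (), rfl⟩
      · rw [← hr] at hx
        obtain ⟨y, rfl⟩ := hx
        exact ⟨Sum.inl y, rfl⟩
  · rintro (x | x) (y | y)
    · simpa using ha x y
    · simp only [Sum.elim_inl, Sum.elim_inr]
      constructor
      · intro h
        simp at h
      · intro h
        exact absurd h (hn _ (hmem x))
    · simp only [Sum.elim_inl, Sum.elim_inr]
      constructor
      · intro h
        simp at h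
      · intro h
        exact absurd h.symm (hn _ (hmem y))
    · simp
  · rintro (x | x)
    · exact hl x
    · rfl

theorem LBS.join {c : ℕ} {A : Set V} {H : SimpleGraph V} {l : V → Fin c}
    (h : LBS c A H l) {i j : Fin c} (hij : i ≠ j) :
    LBS c A (H ⊔ SimpleGraph.fromRel (fun u v => l u = i ∧ l v = j)) l := by
  obtain ⟨W, G', l', e, hb, he, hr, ha, hl⟩ := h
  refine ⟨W, _, l', e, LinBuilt.join W G' l' i j hij hb, he, hr, ?_, hl⟩
  intro x y
  simp only [SimpleGraph.sup_adj, SimpleGraph.fromRel_adj, ha, hl, ne_eq, he.eq_iff]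

theorem LBS.relabel {c : ℕ} {A : Set V} {H : SimpleGraph V} {l : V → Fin c}
    (h : LBS c A H l) (i j : Fin c) :
    LBS c A H (fun v => if l v = i then j else l v) := by
  obtain ⟨W, G', l', e, hb, he, hr, ha, hl⟩ := h
  refine ⟨W, G', _, e, LinBuilt.relabel W G' l' i j hb, he, hr, ha, ?_⟩
  intro x
  simp only [hl]

theorem LBS.joins {c : ℕ} {A : Set V} {H : SimpleGraph V} {l : V → Fin c}
    (h : LBS c A H l) {i : Fin c} : ∀ S : List (Fin c), i ∉ S →
    LBS c A (H ⊔ SimpleGraph.fromRel (fun u v => l u = i ∧ l v ∈ S)) l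
  | [], _ => by
    refine h.congr (fun u _ w _ => ?_) (fun u _ => rfl)
    simp
  | j :: S, hS => by
    have hij : i ≠ j := fun e => hS (by simp [e])
    have hS' : i ∉ S := fun e => hS (List.mem_cons_of_mem _ e)
    refine ((h.joins S hS').join hij).congr (fun u _ w _ => ?_) (fun u _ => rfl)
    simp only [SimpleGraph.sup_adj, SimpleGraph.fromRel_adj, List.mem_cons]
    tauto

theorem LBS.relabels {c : ℕ} {A : Set V} {H : SimpleGraph V} {l : V → Fin c}
    (h : LBS c A H l) (f : Fin c → Fin c) (hf : ∀ a, f (f a) = f a) : ∀ L : List (Fin c),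
    LBS c A H (fun v => if l v ∈ L then f (l v) else l v)
  | [] => h.congr (fun _ _ _ _ => Iff.rfl) (fun u _ => by simp)
  | i :: L => by
    refine ((h.relabels f hf L).relabel i (f i)).congr (fun _ _ _ _ => Iff.rfl) (fun u _ => ?_)
    by_cases h1 : l u ∈ L
    · simp only [h1, if_true, List.mem_cons, or_true]
      by_cases h2 : f (l u) = i
      · rw [if_pos h2, ← h2, hf]
      · rw [if_neg h2]
    · simp only [h1, if_false, List.mem_cons, or_false]
      by_cases h2 : l u = i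
      · rw [if_pos h2, if_pos h2, h2]
      · rw [if_neg h2, if_neg h2]

theorem LBS.comp {c : ℕ} {A : Set V} {H : SimpleGraph V} {l : V → Fin c}
    (h : LBS c A H l) (f : Fin c → Fin c) (hf : ∀ a, f (f a) = f a) :
    LBS c A H (fun v => f (l v)) :=
  (h.relabels f hf (List.finRange c)).congr (fun _ _ _ _ => Iff.rfl) (fun u _ => by simp)

/-- The labels are the classes of the neighbourhoods outside of `A`. -/
def Inv (c : ℕ) (G : SimpleGraph V) (A : Set V) : Prop :=
  ∃ l : V → Fin c, LBS c A G l ∧ ∀ u ∈ A, ∀ w ∈ A, (l u = l w ↔ nb G A u = nb G A w)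

/-- It suffices that equal labels imply equal neighbourhoods. -/
theorem inv_of_le {c : ℕ} {G : SimpleGraph V} {A : Set V} {l : V → Fin c} (h : LBS c A G l)
    (hl : ∀ u ∈ A, ∀ w ∈ A, l u = l w → nb G A u = nb G A w) : Inv c G A := by
  have hrep : ∀ S : Set V, ∃ r : V, (∃ u ∈ A, nb G A u = S) → (r ∈ A ∧ nb G A r = S) ∨ False := by
    intro S
    by_cases hS : ∃ u ∈ A, nb G A u = S
    · obtain ⟨u, hu, e⟩ := hS
      exact ⟨u, fun _ => Or.inl ⟨hu, e⟩⟩
    · obtain ⟨W, G', l', e, hb, he, hr, ha, hl2⟩ := h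
      have hne : Nonempty W := by
        clear ha hl2 hr he e hl hS
        induction hb with
        | single i => exact ⟨()⟩
        | union V W G H l m hc _ _ ih1 ih2 => exact ⟨Sum.inl ih1.some⟩
        | join V G l i j hij _ ih => exact ih
        | relabel V G l i j _ ih => exact ih
      exact ⟨e hne.some, fun h => absurd h hS⟩
  choose R hR using hrep
  have hR1 : ∀ u ∈ A, R (nb G A u) ∈ A ∧ nb G A (R (nb G A u)) = nb G A u := by
    intro u hu
    rcases hR (nb G A u) ⟨u, hu, rfl⟩ with h | h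
    · exact h
    · exact h.elim
  let f : Fin c → Fin c := fun a =>
    if h : ∃ u ∈ A, l u = a then l (R (nb G A h.choose)) else a
  have hf1 : ∀ u ∈ A, f (l u) = l (R (nb G A u)) := by
    intro u hu
    have hex : ∃ w ∈ A, l w = l u := ⟨u, hu, rfl⟩
    have e : f (l u) = l (R (nb G A hex.choose)) := by
      simp only [f, dif_pos hex]
    rw [e, hl _ hex.choose_spec.1 _ hu hex.choose_spec.2]
  have hf2 : ∀ a, (¬ ∃ u ∈ A, l u = a) → f a = a := by
    intro a ha
    simp only [f, dif_neg ha]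
  have hidem : ∀ a, f (f a) = f a := by
    intro a
    by_cases ha : ∃ u ∈ A, l u = a
    · obtain ⟨u, hu, rfl⟩ := ha
      rw [hf1 u hu, hf1 _ (hR1 u hu).1, (hR1 u hu).2]
    · rw [hf2 a ha, hf2 a ha]
  refine ⟨fun v => f (l v), h.comp f hidem, fun u hu w hw => ?_⟩
  simp only [hf1 u hu, hf1 w hw]
  constructor
  · intro e
    have := hl _ (hR1 u hu).1 _ (hR1 w hw).1 e
    rw [(hR1 u hu).2, (hR1 w hw).2] at this
    exact this
  · intro e
    rw [e]

theorem cnt_eq {c : ℕ} {G : SimpleGraph V} {A : Set V} {l : V → Fin c}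
    (hl : ∀ u ∈ A, ∀ w ∈ A, (l u = l w ↔ nb G A u = nb G A w)) :
    cnt G A = (l '' A).ncard := by
  let g : Fin c → Set V := fun a =>
    if h : ∃ u ∈ A, l u = a then nb G A h.choose else ∅
  have hg : ∀ u ∈ A, g (l u) = nb G A u := by
    intro u hu
    have hex : ∃ w ∈ A, l w = l u := ⟨u, hu, rfl⟩
    have e : g (l u) = nb G A hex.choose := by
      simp only [g, dif_pos hex]
    rw [e, (hl _ hex.choose_spec.1 _ hu).1 hex.choose_spec.2]
  have e1 : nb G A '' A = g '' (l '' A) := by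
    ext S
    constructor
    · rintro ⟨u, hu, rfl⟩
      exact ⟨l u, ⟨u, hu, rfl⟩, hg u hu⟩
    · rintro ⟨_, ⟨u, hu, rfl⟩, rfl⟩
      exact ⟨u, hu, (hg u hu).symm⟩
  rw [cnt, e1]
  apply Set.InjOn.ncard_image
  rintro _ ⟨u, hu, rfl⟩ _ ⟨w, hw, rfl⟩ e
  rw [hg u hu, hg w hw] at e
  exact (hl u hu w hw).2 e

theorem nb_insert (G : SimpleGraph V) (A : Set V) (v u : V) :
    nb G (insert v A) u = nb G A u \ {v} := by
  ext w
  simp only [nb, Set.mem_ofPred_eq, Set.mem_insert_iff, Set.mem_sdiff, Set.mem_singleton_iff]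
  tauto

theorem Inv.step {c : ℕ} {G : SimpleGraph V} {A : Set V} (h : Inv c G A) {v : V} (hv : v ∉ A)
    (hc : cost G A v ≤ c) : Inv c G (insert v A) := by
  obtain ⟨l, hb, hl⟩ := h
  -- the label of the new vertex
  have hlab : ∃ i : Fin c, (∀ u ∈ A, l u = i → nb G A u = nb G A v ∧
      ∀ w ∈ A, G.Adj v w → G.Adj u w) := by
    by_cases hI : Imm G A v
    · obtain ⟨⟨p, hp, hpv⟩, h2⟩ := hI
      refine ⟨l p, fun u hu e => ?_⟩
      have e1 : nb G A u = nb G A v := by rw [(hl u hu p hp).1 e, hpv]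
      exact ⟨e1, fun w hw hvw => h2 u hu e1 w hw hvw⟩
    · rw [cost, if_neg hI, cnt_eq hl] at hc
      have hne : l '' A ≠ Set.univ := by
        intro e
        rw [e, Set.ncard_univ, Nat.card_eq_fintype_card, Fintype.card_fin] at hc
        omega
      obtain ⟨i, hi⟩ := (Set.ne_univ_iff_exists_notMem _).1 hne
      exact ⟨i, fun u hu e => absurd ⟨u, hu, e⟩ hi⟩
  obtain ⟨i, hi⟩ := hlab
  have hvw : ∀ w ∈ A, ∀ w' ∈ A, l w' = l w → G.Adj v w' → G.Adj v w := by
    intro w hw w' hw' e hadj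
    have h1 : v ∈ nb G A w' := ⟨hadj.symm, hv⟩
    rw [(hl w' hw' w hw).1 e] at h1
    exact h1.1.symm
  let S : List (Fin c) := (List.finRange c).filter (fun j => decide (∃ w ∈ A, l w = j ∧ G.Adj v w))
  have hS : ∀ j, j ∈ S ↔ ∃ w ∈ A, l w = j ∧ G.Adj v w := by
    intro j
    simp [S]
  have hiS : i ∉ S := by
    rw [hS]
    rintro ⟨w, hw, e, hadj⟩
    exact G.irrefl ((hi w hw e).2 w hw hadj)
  let H0 : SimpleGraph V :=
    { Adj := fun u w => G.Adj u w ∧ u ∈ A ∧ w ∈ A
      symm := ⟨fun u w h => ⟨h.1.symm, h.2.2, h.2.1⟩⟩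
      loopless := ⟨fun u h => G.irrefl h.1⟩ }
  have hH0 : ∀ u w, H0.Adj u w ↔ (G.Adj u w ∧ u ∈ A ∧ w ∈ A) := fun u w => Iff.rfl
  let l1 : V → Fin c := Function.update l v i
  have hl1v : l1 v = i := Function.update_self _ _ _
  have hl1 : ∀ u ∈ A, l1 u = l u := by
    intro u hu
    have : u ≠ v := fun e => hv (e ▸ hu)
    exact Function.update_of_ne this _ _
  have hb1 : LBS c A H0 l1 := hb.congr (fun u hu w hw => by rw [hH0]; tauto)
    (fun u hu => (hl1 u hu).symm)
  have hb2 : LBS c (insert v A) H0 l1 := hb1.add hv (fun u hu h => hv h.2.2)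
  have hb3 := hb2.joins S hiS
  have hb4 : LBS c (insert v A) G l1 := by
    refine hb3.congr ?_ (fun _ _ => rfl)
    have aux : ∀ u ∈ A, ∀ w ∈ A, l1 u = i → l1 w ∈ S → G.Adj u w := by
      intro u hu w hw e1 e2
      rw [hl1 u hu] at e1
      rw [hl1 w hw, hS] at e2
      obtain ⟨w', hw', e3, hadj⟩ := e2
      exact (hi u hu e1).2 w hw (hvw w hw w' hw' e3 hadj)
    have auxv : ∀ w ∈ A, (l1 w ∈ S ↔ G.Adj v w) := by
      intro w hw
      rw [hl1 w hw, hS]
      constructor
      · rintro ⟨w', hw', e3, hadj⟩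
        exact hvw w hw w' hw' e3 hadj
      · intro hadj
        exact ⟨w, hw, rfl, hadj⟩
    have main : ∀ w ∈ A, ((H0 ⊔ SimpleGraph.fromRel (fun u v => l1 u = i ∧ l1 v ∈ S)).Adj v w ↔
        G.Adj v w) := by
      intro w hw
      have hne : v ≠ w := fun e => hv (e ▸ hw)
      simp only [SimpleGraph.sup_adj, SimpleGraph.fromRel_adj, hH0, hl1v, auxv w hw]
      constructor
      · rintro (h | ⟨_, h | h⟩)
        · exact h.1
        · exact h.2
        · exact absurd h.2 hiS
      · intro h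
        exact Or.inr ⟨hne, Or.inl ⟨trivial, h⟩⟩
    rintro u (rfl | hu) w (rfl | hw)
    · simp
    · exact main w hw
    · rw [SimpleGraph.adj_comm, main u hu, G.adj_comm]
    · simp only [SimpleGraph.sup_adj, SimpleGraph.fromRel_adj, hH0]
      constructor
      · rintro (h | ⟨_, h | h⟩)
        · exact h.1
        · exact aux u hu w hw h.1 h.2
        · exact (aux w hw u hu h.1 h.2).symm
      · intro h
        exact Or.inl ⟨h, hu, hw⟩
  refine inv_of_le hb4 ?_
  have hAi : ∀ u ∈ A, l u = i → nb G (insert v A) u = nb G (insert v A) v := by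
    intro u hu e
    rw [nb_insert, nb_insert, (hi u hu e).1]
  rintro u (rfl | hu) w (rfl | hw) e
  · rfl
  · rw [hl1v, hl1 w hw] at e
    exact (hAi w hw e.symm).symm
  · rw [hl1v, hl1 u hu] at e
    exact hAi u hu e
  · rw [hl1 u hu, hl1 w hw] at e
    rw [nb_insert, nb_insert, (hl u hu w hw).1 e]

theorem lcwLE_of_inv {c : ℕ} {G : SimpleGraph V} (h : Inv c G Set.univ) : LcwLE G c := by
  obtain ⟨l, ⟨W, G', l', e, hb, he, hr, ha, _⟩, _⟩ := h
  have hsurj : Function.Surjective e := Set.range_eq_univ.1 hr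
  refine ⟨W, G', l', hb, ⟨?_⟩⟩
  exact (RelIso.mk (Equiv.ofBijective e ⟨he, hsurj⟩) (fun {x y} => (ha x y).symm) :
    G' ≃g G).symm

theorem lcwLE_of_good {c : ℕ} {G : SimpleGraph V} : ∀ (L : List V) (A : Set V), Inv c G A →
    GoodL c G A L → LcwLE G c
  | [], A, hA, h => by
    have h1 : A = Set.univ := h.1
    subst h1
    exact lcwLE_of_inv hA
  | v :: L, A, hA, h => lcwLE_of_good L (insert v A) (hA.step h.1 h.2.1) h.2.2

theorem lcwLE_of_hasLayout {V : Type} [Nonempty V] {c : ℕ} {G : SimpleGraph V}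
    (h : HasLayout c G) : LcwLE G c := by
  obtain ⟨L, hL⟩ := h
  rcases L with _ | ⟨v, L⟩
  · have h1 : (∅ : Set V) = Set.univ := hL.1
    exact absurd h1.symm (Set.univ_nonempty.ne_empty)
  · obtain ⟨_, hc, hL'⟩ := hL
    have hI : ¬ Imm G ∅ v := by
      rintro ⟨⟨p, hp, _⟩, _⟩
      exact hp
    rw [cost, if_neg hI] at hc
    have hpos : 0 < c := by omega
    refine lcwLE_of_good L _ ?_ hL'
    refine ⟨fun _ => ⟨0, hpos⟩, ?_, ?_⟩
    · have := LBS.single v G (fun _ => (⟨0, hpos⟩ : Fin c))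
      rwa [← insert_empty_eq] at this
    · rintro u (rfl | hu) w (rfl | hw)
      · simp
      · exact absurd hw (Set.notMem_empty _)
      · exact absurd hu (Set.notMem_empty _)
      · exact absurd hu (Set.notMem_empty _)

end Pool.Agent.R545.Lc
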