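import Mathlib
import Pool.Agent.Helper856.Lcw.Defs

/-!
# Linear clique-width: layouts

`HasLayout c G`: the vertices of `G` can be ordered such that all costs are at most `c`.
The cost of placing `v` after the set `A` is the number of different neighbourhoods outside of `A`
of the vertices in `A`, plus one if `v` is not immediately mergeable.
-/

namespace Pool.Agent.R545.Lc

open Classical

variable {V W X : Type}

/-- The neighbours of `v` outside of `A`. -/
def nb (G : SimpleGraph V) (A : Set V) (v : V) : Set V := {w | G.Adj v w ∧ w ∉ A}

/-- The number of different neighbourhoods outside of `A` of vertices in `A`. -/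
noncomputable def cnt (G : SimpleGraph V) (A : Set V) : ℕ := (nb G A '' A).ncard

/-- The vertex `v` can be added to `A` with the label of a class of `A`. -/
def Imm (G : SimpleGraph V) (A : Set V) (v : V) : Prop :=
  (∃ p ∈ A, nb G A p = nb G A v) ∧
    ∀ p ∈ A, nb G A p = nb G A v → ∀ w ∈ A, G.Adj v w → G.Adj p w

/-- The number of labels needed to add `v` to `A`. -/
noncomputable def cost (G : SimpleGraph V) (A : Set V) (v : V) : ℕ :=
  cnt G A + (if Imm G A v then 0 else 1)

/-- The list `l` is an ordering of the complement of `A`, with all costs at most `c`. -/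
def GoodL (c : ℕ) (G : SimpleGraph V) : Set V → List V → Prop
  | A, [] => A = Set.univ ∧ cnt G A ≤ c
  | A, v :: l => v ∉ A ∧ cost G A v ≤ c ∧ GoodL c G (insert v A) l

/-- `G` has an ordering with all costs at most `c`. -/
def HasLayout (c : ℕ) (G : SimpleGraph V) : Prop := ∃ l, GoodL c G ∅ l

/-- The graph `G` is made from disjoint copies of `G1` and `G2`; the adjacency between them is
given by `r`. -/
structure Glued (G : SimpleGraph X) (G1 : SimpleGraph V) (G2 : SimpleGraph W)
    (i : V → X) (j : W → X) (r : V → W → Prop) : Prop where
  inj1 : Function.Injective i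
  inj2 : Function.Injective j
  disj : ∀ v w, i v ≠ j w
  cover : ∀ x, (∃ v, i v = x) ∨ (∃ w, j w = x)
  adj1 : ∀ u v, G.Adj (i u) (i v) ↔ G1.Adj u v
  adj2 : ∀ u v, G.Adj (j u) (j v) ↔ G2.Adj u v
  adj12 : ∀ v w, G.Adj (i v) (j w) ↔ r v w

theorem Glued.swap {G : SimpleGraph X} {G1 : SimpleGraph V} {G2 : SimpleGraph W}
    {i : V → X} {j : W → X} {r : V → W → Prop} (h : Glued G G1 G2 i j r) :
    Glued G G2 G1 j i (fun w v => r v w) where
  inj1 := h.inj2
  inj2 := h.inj1
  disj := fun w v e => h.disj v w e.symm
  cover := fun x => (h.cover x).symm
  adj1 := h.adj2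
  adj2 := h.adj1
  adj12 := fun w v => by rw [G.adj_comm, h.adj12]

/-! ### Walks -/

/-- The pairs of lists that can be traversed with all pairs met in the relation `R`, where one
moves in one of the lists at a time. -/
inductive NW {α β : Type} (R : α → β → Prop) : List α → List β → Prop
  | single {a : α} {b : β} : R a b → NW R [a] [b]
  | left {a : α} {b : β} {x : List α} {y : List β} : R a b → NW R x (b :: y) →
      NW R (a :: x) (b :: y)
  | right {a : α} {b : β} {x : List α} {y : List β} : R a b → NW R (a :: x) y →
      NW R (a :: x) (b :: y)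

/-- The pairs of lists that can be traversed with all pairs met in the relation `R`, where one
may move in both lists at the same time. -/
inductive DW {α β : Type} (R : α → β → Prop) : List α → List β → Prop
  | single {a : α} {b : β} : R a b → DW R [a] [b]
  | left {a : α} {b : β} {x : List α} {y : List β} : R a b → DW R x (b :: y) →
      DW R (a :: x) (b :: y)
  | right {a : α} {b : β} {x : List α} {y : List β} : R a b → DW R (a :: x) y →
      DW R (a :: x) (b :: y)
  | diag {a : α} {b : β} {x : List α} {y : List β} : R a b → DW R x y →
      DW R (a :: x) (b :: y)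

/-- Same first component, and the second component does not grow. -/
def dm {δ : Type} (p q : δ × ℕ) : Prop := p.1 = q.1 ∧ q.2 ≤ p.2

/-- Equivalence of lists of pairs. -/
def Eqw {δ : Type} (x y : List (δ × ℕ)) : Prop := DW dm x y ∧ DW dm y x

end Pool.Agent.R545.Lc
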