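import Pool.Agent.R545.Lc.Defs

/-!
# From a linear clique-width construction to a layout
-/

namespace Pool.Agent.R545.Lc

open Classical Pool.Agent.Helper856.Lcw

variable {V W X : Type}

/-- The list `l` is an ordering of `B \ A` (with `A ⊆ B`), with all costs at most `c`. -/
def GoodP (c : ℕ) (G : SimpleGraph V) : Set V → List V → Set V → Prop
  | A, [], B => A = B
  | A, v :: l, B => v ∉ A ∧ cost G A v ≤ c ∧ GoodP c G (insert v A) l B

theorem GoodP.append {c : ℕ} {G : SimpleGraph V} {B C : Set V} {l l' : List V} :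
    ∀ {A : Set V}, GoodP c G A l B → GoodP c G B l' C → GoodP c G A (l ++ l') C := by
  induction l with
  | nil =>
    intro A h h'
    cases h
    exact h'
  | cons v l ih =>
    intro A h h'
    exact ⟨h.1, h.2.1, ih h.2.2 h'⟩

theorem GoodP.goodL {c : ℕ} {G : SimpleGraph V} {l : List V} (hc : cnt G Set.univ ≤ c) :
    ∀ {A : Set V}, GoodP c G A l Set.univ → GoodL c G A l := by
  induction l with
  | nil =>
    intro A h
    cases h
    exact ⟨rfl, hc⟩
  | cons v l ih =>
    intro A h
    exact ⟨h.1, h.2.1, ih h.2.2⟩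

/-- The main step: all vertices except `v0` have been placed, `v0` is next. -/
theorem cost_le_of_labels {k : ℕ} {Gf : SimpleGraph X} (e : V → X) (he : Function.Injective e)
    (v0 : V) (l : V → Fin k)
    (hb : ∀ w, w ≠ v0 → Gf.Adj (e v0) (e w) → l v0 ≠ l w ∧
      ∀ u' w', l u' = l v0 → l w' = l w → Gf.Adj (e u') (e w'))
    (hc : ∀ u v, l u = l v → ∀ x, x ∉ Set.range e → (Gf.Adj (e u) x ↔ Gf.Adj (e v) x)) :
    cost Gf (e '' {v0}ᶜ) (e v0) ≤ k := by
  set A : Set X := e '' {v0}ᶜ with hA
  have hmem : ∀ w, w ≠ v0 → e w ∈ A := fun w hw => ⟨w, hw, rfl⟩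
  have hnm : e v0 ∉ A := by
    rintro ⟨w, hw, h⟩
    exact hw (he h)
  have hout : ∀ x, x ∉ A → x = e v0 ∨ x ∉ Set.range e := by
    intro x hx
    by_cases h : x ∈ Set.range e
    · obtain ⟨w, rfl⟩ := h
      by_cases hw : w = v0
      · left; rw [hw]
      · exact absurd (hmem w hw) hx
    · exact Or.inr h
  -- same label, same neighbourhood
  have hsame : ∀ u v, u ≠ v0 → v ≠ v0 → l u = l v → nb Gf A (e u) = nb Gf A (e v) := by
    have key : ∀ u v, u ≠ v0 → v ≠ v0 → l u = l v → ∀ x, x ∉ A → Gf.Adj (e u) x →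
        Gf.Adj (e v) x := by
      intro u v hu hv huv x hx h
      rcases hout x hx with rfl | hx'
      · have h2 := (hb u hu h.symm).2 v0 v rfl huv.symm
        exact h2.symm
      · exact (hc u v huv x hx').mp h
    intro u v hu hv huv
    ext x
    constructor
    · rintro ⟨h1, h2⟩
      exact ⟨key u v hu hv huv x h2 h1, h2⟩
    · rintro ⟨h1, h2⟩
      exact ⟨key v u hv hu huv.symm x h2 h1, h2⟩
  -- the labels used
  set S : Set (Fin k) := l '' {v0}ᶜ with hS
  -- choose a representative for every label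
  have hrep : ∀ i : Fin k, ∃ x : Set X, ∀ u, u ≠ v0 → l u = i → nb Gf A (e u) = x := by
    intro i
    by_cases h : ∃ u, u ≠ v0 ∧ l u = i
    · obtain ⟨u, hu, hi⟩ := h
      exact ⟨nb Gf A (e u), fun v hv hvi => hsame v u hv hu (hvi.trans hi.symm)⟩
    · exact ⟨∅, fun u hu hi => absurd ⟨u, hu, hi⟩ h⟩
  choose g hg using hrep
  have himg : nb Gf A '' A = g '' S := by
    ext x
    constructor
    · rintro ⟨_, ⟨u, hu, rfl⟩, rfl⟩
      exact ⟨l u, ⟨u, hu, rfl⟩, (hg (l u) u hu rfl).symm⟩
    · rintro ⟨_, ⟨u, hu, rfl⟩, rfl⟩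
      exact ⟨e u, hmem u hu, hg (l u) u hu rfl⟩
  have hcnt : cnt Gf A ≤ S.ncard := by
    unfold cnt
    rw [himg]
    exact Set.ncard_image_le (Set.toFinite _)
  have hSk : S.ncard ≤ k := by
    have := Set.ncard_le_ncard (Set.subset_univ S) (Set.toFinite _)
    rwa [Set.ncard_univ, Nat.card_eq_fintype_card, Fintype.card_fin] at this
  unfold cost
  by_cases hlt : cnt Gf A < k
  · split_ifs <;> omega
  have hck : cnt Gf A = S.ncard := by omega
  have hSk' : S.ncard = k := by omega
  have hfull : S = Set.univ := by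
    apply Set.eq_of_subset_of_ncard_le (Set.subset_univ S)
    rw [Set.ncard_univ, Nat.card_eq_fintype_card, Fintype.card_fin]
    omega
  have hinj : Set.InjOn g S := by
    rw [← Set.ncard_image_iff (Set.toFinite _), ← himg]
    exact hck
  obtain ⟨u0, hu0, hlu0⟩ : l v0 ∈ S := hfull ▸ Set.mem_univ _
  have hu0' : u0 ≠ v0 := hu0
  have hnadj : ∀ u, u ≠ v0 → l u = l v0 → ¬ Gf.Adj (e u) (e v0) := by
    intro u hu hl h
    exact (hb u hu h.symm).1 hl.symm
  have himm : Imm Gf A (e v0) := by
    have hnb0 : nb Gf A (e u0) = nb Gf A (e v0) := by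
      ext x
      constructor
      · rintro ⟨h1, h2⟩
        refine ⟨?_, h2⟩
        rcases hout x h2 with rfl | hx
        · exact absurd h1 (hnadj u0 hu0' hlu0)
        · exact (hc u0 v0 hlu0 x hx).mp h1
      · rintro ⟨h1, h2⟩
        refine ⟨?_, h2⟩
        rcases hout x h2 with rfl | hx
        · exact absurd h1 (Gf.loopless.irrefl _)
        · exact (hc u0 v0 hlu0 x hx).mpr h1
    refine ⟨⟨e u0, hmem u0 hu0', hnb0⟩, ?_⟩
    rintro _ ⟨p, hp, rfl⟩ hpn _ ⟨w, hw, rfl⟩ hvw
    have hpl : l p = l v0 := by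
      rw [← hlu0]
      apply hinj (hfull ▸ Set.mem_univ _) (hfull ▸ Set.mem_univ _)
      rw [← hg (l p) p hp rfl, ← hg (l u0) u0 hu0' rfl, hpn, hnb0]
    exact (hb w hw hvw).2 p w hpl rfl
  rw [if_pos himm]
  omega

theorem goodP_of_linBuilt {k : ℕ} {V : Type} {G' : SimpleGraph V} {l : V → Fin k}
    (h : LinBuilt k V G' l) : ∀ {X : Type} (Gf : SimpleGraph X) (e : V → X),
      Function.Injective e →
      (∀ u v, G'.Adj u v → Gf.Adj (e u) (e v)) →
      (∀ u v, ¬ G'.Adj u v → Gf.Adj (e u) (e v) → l u ≠ l v ∧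
        ∀ u' v', l u' = l u → l v' = l v → Gf.Adj (e u') (e v')) →
      (∀ u v, l u = l v → ∀ x, x ∉ Set.range e → (Gf.Adj (e u) x ↔ Gf.Adj (e v) x)) →
      ∃ L, GoodP k Gf ∅ L (Set.range e) := by
  induction h with
  | single i =>
    intro X Gf e he ha hb hc
    refine ⟨[e ()], ?_, ?_, ?_⟩
    · exact Set.notMem_empty _
    · have := cost_le_of_labels (Gf := Gf) e he () (fun _ => i)
        (fun w hw => absurd (Subsingleton.elim w ()) hw) hc
      have h2 : e '' {()}ᶜ = ∅ := by
        rw [Set.image_eq_empty]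
        ext x
        simp
      rwa [h2] at this
    · show insert (e ()) ∅ = Set.range e
      ext x
      simp only [Set.mem_insert_iff, Set.mem_empty_iff_false, or_false, Set.mem_range]
      constructor
      · rintro rfl
        exact ⟨(), rfl⟩
      · rintro ⟨u, rfl⟩
        rfl
  | union V W G H l m hcard hG hH ihG ihH =>
    intro X Gf e he ha hb hc
    rcases hcard with hcard | hcard
    · -- `V` has one vertex
      obtain ⟨v0, hv0⟩ := (Nat.card_eq_one_iff_exists).mp hcard
      have hr : Set.range (fun w => e (Sum.inr w)) = e '' {Sum.inl v0}ᶜ := by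
        ext x
        constructor
        · rintro ⟨w, rfl⟩
          exact ⟨Sum.inr w, by simp, rfl⟩
        · rintro ⟨y, hy, rfl⟩
          rcases y with y | y
          · exact absurd (by rw [hv0 y]; rfl) hy
          · exact ⟨y, rfl⟩
      obtain ⟨L, hL⟩ := ihH Gf (fun w => e (Sum.inr w)) (fun a b hab => Sum.inr_injective (he hab))
        (fun u v huv => ha _ _ huv)
        (fun u v huv h => by
          obtain ⟨h1, h2⟩ := hb (Sum.inr u) (Sum.inr v) huv h
          exact ⟨h1, fun u' v' hu' hv' => h2 (Sum.inr u') (Sum.inr v') hu' hv'⟩)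
        (fun u v huv x hx => by
          rw [hr] at hx
          by_cases hx' : x ∈ Set.range e
          · obtain ⟨y, rfl⟩ := hx'
            have hy : y = Sum.inl v0 := by
              by_contra h
              exact hx ⟨y, h, rfl⟩
            subst hy
            constructor
            · intro h
              exact (hb (Sum.inr u) (Sum.inl v0) (by simp) h).2 (Sum.inr v) (Sum.inl v0)
                huv.symm rfl
            · intro h
              exact (hb (Sum.inr v) (Sum.inl v0) (by simp) h).2 (Sum.inr u) (Sum.inl v0)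
                huv rfl
          · exact hc (Sum.inr u) (Sum.inr v) huv x hx')
      rw [hr] at hL
      refine ⟨L ++ [e (Sum.inl v0)], hL.append ⟨?_, ?_, ?_⟩⟩
      · rintro ⟨y, hy, h⟩
        exact hy (he h)
      · refine cost_le_of_labels e he (Sum.inl v0) (Sum.elim l m) ?_ hc
        intro w hw h
        rcases w with w | w
        · exact absurd (by rw [hv0 w]) hw
        · exact hb (Sum.inl v0) (Sum.inr w) (by simp) h
      · show insert (e (Sum.inl v0)) (e '' {Sum.inl v0}ᶜ) = Set.range e
        rw [← Set.image_insert_eq, ← Set.image_univ]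
        congr 1
        ext y
        by_cases hy : y = Sum.inl v0 <;> simp [hy]
    · -- `W` has one vertex
      obtain ⟨w0, hw0⟩ := (Nat.card_eq_one_iff_exists).mp hcard
      have hr : Set.range (fun w => e (Sum.inl w)) = e '' {Sum.inr w0}ᶜ := by
        ext x
        constructor
        · rintro ⟨w, rfl⟩
          exact ⟨Sum.inl w, by simp, rfl⟩
        · rintro ⟨y, hy, rfl⟩
          rcases y with y | y
          · exact ⟨y, rfl⟩
          · exact absurd (by rw [hw0 y]; rfl) hy
      obtain ⟨L, hL⟩ := ihG Gf (fun w => e (Sum.inl w)) (fun a b hab => Sum.inl_injective (he hab))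
        (fun u v huv => ha _ _ huv)
        (fun u v huv h => by
          obtain ⟨h1, h2⟩ := hb (Sum.inl u) (Sum.inl v) huv h
          exact ⟨h1, fun u' v' hu' hv' => h2 (Sum.inl u') (Sum.inl v') hu' hv'⟩)
        (fun u v huv x hx => by
          rw [hr] at hx
          by_cases hx' : x ∈ Set.range e
          · obtain ⟨y, rfl⟩ := hx'
            have hy : y = Sum.inr w0 := by
              by_contra h
              exact hx ⟨y, h, rfl⟩
            subst hy
            constructor
            · intro h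
              exact (hb (Sum.inl u) (Sum.inr w0) (by simp) h).2 (Sum.inl v) (Sum.inr w0)
                huv.symm rfl
            · intro h
              exact (hb (Sum.inl v) (Sum.inr w0) (by simp) h).2 (Sum.inl u) (Sum.inr w0)
                huv rfl
          · exact hc (Sum.inl u) (Sum.inl v) huv x hx')
      rw [hr] at hL
      refine ⟨L ++ [e (Sum.inr w0)], hL.append ⟨?_, ?_, ?_⟩⟩
      · rintro ⟨y, hy, h⟩
        exact hy (he h)
      · refine cost_le_of_labels e he (Sum.inr w0) (Sum.elim l m) ?_ hc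
        intro w hw h
        rcases w with w | w
        · exact hb (Sum.inr w0) (Sum.inl w) (by simp) h
        · exact absurd (by rw [hw0 w]) hw
      · show insert (e (Sum.inr w0)) (e '' {Sum.inr w0}ᶜ) = Set.range e
        rw [← Set.image_insert_eq, ← Set.image_univ]
        congr 1
        ext y
        by_cases hy : y = Sum.inr w0 <;> simp [hy]
  | join V G l i j hij hG ih =>
    intro X Gf e he ha hb hc
    refine ih Gf e he (fun u v huv => ha u v (Or.inl huv)) ?_ hc
    intro u v huv h
    by_cases hJ : (SimpleGraph.fromRel (fun u v => l u = i ∧ l v = j)).Adj u v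
    · have hJ' := hJ
      rw [SimpleGraph.fromRel_adj] at hJ'
      obtain ⟨hne, hJ' | hJ'⟩ := hJ'
      · refine ⟨by rw [hJ'.1, hJ'.2]; exact hij, fun u' v' hu' hv' => ?_⟩
        refine ha u' v' (Or.inr ?_)
        rw [SimpleGraph.fromRel_adj]
        refine ⟨?_, Or.inl ⟨by rw [hu', hJ'.1], by rw [hv', hJ'.2]⟩⟩
        rintro rfl
        exact hij (by rw [← hJ'.1, ← hu', hv', hJ'.2])
      · refine ⟨by rw [hJ'.1, hJ'.2]; exact hij.symm, fun u' v' hu' hv' => ?_⟩
        refine ha u' v' (Or.inr ?_)
        rw [SimpleGraph.fromRel_adj]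
        refine ⟨?_, Or.inr ⟨by rw [hv', hJ'.1], by rw [hu', hJ'.2]⟩⟩
        rintro rfl
        exact hij (by rw [← hJ'.1, ← hv', hu', hJ'.2])
    · refine hb u v ?_ h
      rintro (h' | h')
      · exact huv h'
      · exact hJ h'
  | relabel V G l i j hG ih =>
    intro X Gf e he ha hb hc
    refine ih Gf e he ha ?_ ?_
    · intro u v huv h
      obtain ⟨h1, h2⟩ := hb u v huv h
      refine ⟨fun h' => h1 (by simp only [h']), fun u' v' hu' hv' => h2 u' v' ?_ ?_⟩
      · simp only [hu']
      · simp only [hv']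
    · intro u v huv x hx
      exact hc u v (by simp only [huv]) x hx

theorem linBuilt_nonempty {k : ℕ} {V : Type} {G : SimpleGraph V} {l : V → Fin k}
    (h : LinBuilt k V G l) : Nonempty V := by
  induction h with
  | single i => exact ⟨()⟩
  | union V W G H l m hcard hG hH ihG ihH =>
    obtain ⟨v⟩ := ihG
    exact ⟨Sum.inl v⟩
  | join V G l i j hij hG ih => exact ih
  | relabel V G l i j hG ih => exact ih

theorem cnt_univ_le (G : SimpleGraph V) : cnt G Set.univ ≤ 1 := by
  unfold cnt
  have h : nb G Set.univ '' Set.univ ⊆ {∅} := by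
    rintro _ ⟨v, _, rfl⟩
    rw [Set.mem_singleton_iff, Set.eq_empty_iff_forall_notMem]
    intro x hx
    exact hx.2 (Set.mem_univ x)
  calc (nb G Set.univ '' Set.univ).ncard ≤ ({∅} : Set (Set V)).ncard :=
        Set.ncard_le_ncard h (Set.toFinite _)
    _ = 1 := Set.ncard_singleton _

theorem hasLayout_of_lcwLE {V : Type} {c : ℕ} {G : SimpleGraph V}
    (h : LcwLE G c) : HasLayout c G := by
  obtain ⟨W, G', l, hb, ⟨e⟩⟩ := h
  obtain ⟨L, hL⟩ := goodP_of_linBuilt hb G (fun w => e.symm w) e.symm.injective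
    (fun u v huv => e.symm.map_adj_iff.mpr huv)
    (fun u v huv h => absurd (e.symm.map_adj_iff.mp h) huv)
    (fun u v _ x hx => absurd ⟨e x, e.symm_apply_apply x⟩ hx)
  have hr : Set.range (fun w => e.symm w) = Set.univ := by
    ext x
    simp only [Set.mem_range, Set.mem_univ, iff_true]
    exact ⟨e x, e.symm_apply_apply x⟩
  rw [hr] at hL
  obtain ⟨w⟩ := linBuilt_nonempty hb
  have hc : 1 ≤ c := by
    have := (l w).isLt
    omega
  exact ⟨L, hL.goodL ((cnt_univ_le G).trans hc)⟩

end Pool.Agent.R545.Lc
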