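import Pool.Agent.R545.Lc.Defs

/-!
# Typical sequences

Every list of pairs with increasing first components and second components below `N` is equivalent
to a list from a finite set which only depends on `N` and the type of the first components.
-/

namespace Pool.Agent.R545.Lc

open Classical

variable {δ α β : Type}

theorem dm_refl (p : δ × ℕ) : dm p p := ⟨rfl, le_refl _⟩

theorem DW.append {R : α → β → Prop} {x x' : List α} {y y' : List β} (h : DW R x y)
    (h' : DW R x' y') : DW R (x ++ x') (y ++ y') := by
  induction h with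
  | single hab => exact DW.diag hab h'
  | left hab _ ih => exact DW.left hab ih
  | right hab _ ih => exact DW.right hab ih
  | diag hab _ ih => exact DW.diag hab ih

theorem DW.refl {R : α → α → Prop} (hR : ∀ a, R a a) : ∀ x : List α, x ≠ [] → DW R x x
  | [], h => absurd rfl h
  | [a], _ => DW.single (hR a)
  | a :: b :: x, _ => DW.diag (hR a) (DW.refl hR (b :: x) (by simp))

theorem DW.stayL {R : α → β → Prop} {b : β} : ∀ x : List α, x ≠ [] → (∀ p ∈ x, R p b) →
    DW R x [b]
  | [], h, _ => absurd rfl h
  | [a], _, h => DW.single (h a (by simp))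
  | a :: c :: x, _, h => DW.left (h a (by simp))
      (DW.stayL (c :: x) (by simp) (fun p hp => h p (List.mem_cons_of_mem _ hp)))

theorem DW.stayL_diag {R : α → β → Prop} {b : β} {y : List α} {z : List β} (hyz : DW R y z) :
    ∀ x : List α, x ≠ [] → (∀ p ∈ x, R p b) → DW R (x ++ y) (b :: z)
  | [], h, _ => absurd rfl h
  | [a], _, h => DW.diag (h a (by simp)) hyz
  | a :: c :: x, _, h => DW.left (h a (by simp))
      (DW.stayL_diag hyz (c :: x) (by simp) (fun p hp => h p (List.mem_cons_of_mem _ hp)))

theorem DW.stayR_diag {R : α → β → Prop} {b : α} {z : List α} {w : List β} (hzw : DW R z w) :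
    ∀ y : List β, y ≠ [] → (∀ q ∈ y, R b q) → DW R (b :: z) (y ++ w)
  | [], h, _ => absurd rfl h
  | [a], _, h => DW.diag (h a (by simp)) hzw
  | a :: c :: x, _, h => DW.right (h a (by simp))
      (DW.stayR_diag hzw (c :: x) (by simp) (fun p hp => h p (List.mem_cons_of_mem _ hp)))

theorem Eqw.append {x x' y y' : List (δ × ℕ)} (h : Eqw x y) (h' : Eqw x' y') :
    Eqw (x ++ x') (y ++ y') :=
  ⟨h.1.append h'.1, h.2.append h'.2⟩

theorem Eqw.refl (x : List (δ × ℕ)) (hx : x ≠ []) : Eqw x x :=
  ⟨DW.refl dm_refl x hx, DW.refl dm_refl x hx⟩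

/-- Equivalence of possibly empty lists. -/
def Eq0 (x y : List (δ × ℕ)) : Prop := (x = [] ∧ y = []) ∨ Eqw x y

theorem Eq0.append {x x' y y' : List (δ × ℕ)} (h : Eq0 x y) (h' : Eq0 x' y') :
    Eq0 (x ++ x') (y ++ y') := by
  rcases h with ⟨rfl, rfl⟩ | h
  · simpa using h'
  · rcases h' with ⟨rfl, rfl⟩ | h'
    · right
      simpa using h
    · exact Or.inr (h.append h')

/-- The part between the first and the last occurrence of the smallest value. -/
theorem eqw_mid (a m : δ × ℕ) (mm : List (δ × ℕ)) (hm : m ∈ mm)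
    (h1 : ∀ p ∈ mm, p.1 = a.1 ∧ a.2 ≤ p.2 ∧ p.2 ≤ m.2) :
    Eqw (a :: mm ++ [a]) [a, m, a] := by
  have hma := h1 m hm
  constructor
  · obtain ⟨s, t, rfl⟩ := List.append_of_mem hm
    have e : a :: (s ++ m :: t) ++ [a] = (a :: s) ++ (m :: (t ++ [a])) := by simp
    rw [e]
    refine DW.stayL_diag ?_ (a :: s) (by simp) ?_
    · refine DW.diag (dm_refl m) (DW.stayL _ (by simp) ?_)
      intro p hp
      rcases List.mem_append.1 hp with hp | hp
      · have := h1 p (by simp [hp])
        exact ⟨this.1, this.2.1⟩
      · rw [List.mem_singleton.1 hp]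
        exact dm_refl a
    · intro p hp
      rcases List.mem_cons.1 hp with rfl | hp
      · exact dm_refl _
      · have := h1 p (by simp [hp])
        exact ⟨this.1, this.2.1⟩
  · have hne : mm ≠ [] := List.ne_nil_of_mem hm
    refine DW.diag (dm_refl a) (DW.stayR_diag (DW.single (dm_refl a)) mm hne ?_)
    intro q hq
    have := h1 q hq
    exact ⟨by rw [hma.1, this.1], this.2.2⟩

theorem exists_max (mm : List (δ × ℕ)) (h : mm ≠ []) : ∃ m ∈ mm, ∀ p ∈ mm, p.2 ≤ m.2 := by
  obtain ⟨m, hm, hmax⟩ := Finset.exists_max_image mm.toFinset (fun p => p.2)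
    (by
      obtain ⟨a, ha⟩ := List.exists_mem_of_ne_nil mm h
      exact ⟨a, by simpa using ha⟩)
  exact ⟨m, by simpa using hm, fun p hp => hmax p (by simpa using hp)⟩

theorem typical_const : ∀ N : ℕ, ∃ b : ℕ, ∀ (d : δ) (lo : ℕ) (x : List (δ × ℕ)),
    (∀ p ∈ x, p.1 = d ∧ lo ≤ p.2 ∧ p.2 < lo + N) →
    ∃ y : List (δ × ℕ), (∀ p ∈ y, p.1 = d ∧ lo ≤ p.2 ∧ p.2 < lo + N) ∧ y.length ≤ b ∧ Eq0 x y := by
  intro N
  induction N with
  | zero =>
    refine ⟨0, fun d lo x hx => ⟨[], by simp, by simp, Or.inl ⟨?_, rfl⟩⟩⟩
    rcases x with _ | ⟨p, x⟩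
    · rfl
    · have := hx p (by simp)
      omega
  | succ N ih =>
    obtain ⟨b, hb⟩ := ih
    refine ⟨b + 3 + b, fun d lo x hx => ?_⟩
    have low : ∀ z : List (δ × ℕ), (∀ p ∈ z, p ∈ x) → (d, lo) ∉ z →
        ∃ y : List (δ × ℕ), (∀ p ∈ y, p.1 = d ∧ lo ≤ p.2 ∧ p.2 < lo + (N + 1)) ∧
          y.length ≤ b ∧ Eq0 z y := by
      intro z hz hlo
      obtain ⟨y, h1, h2, h3⟩ := hb d (lo + 1) z (by
        intro p hp
        obtain ⟨e1, e2, e3⟩ := hx p (hz p hp)
        have : p.2 ≠ lo := by
          intro e
          apply hlo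
          have : p = (d, lo) := Prod.ext e1 e
          rwa [← this]
        refine ⟨e1, by omega, by omega⟩)
      refine ⟨y, fun p hp => ?_, h2, h3⟩
      obtain ⟨e1, e2, e3⟩ := h1 p hp
      exact ⟨e1, by omega, by omega⟩
    by_cases hmem : (d, lo) ∈ x
    · obtain ⟨pre, rest, hx1, hpre⟩ := List.eq_append_cons_of_mem hmem
      -- the middle and the end
      have key : ∃ mid suf : List (δ × ℕ), (d, lo) :: rest = mid ++ suf ∧ (d, lo) ∉ suf ∧
          ∃ mid' : List (δ × ℕ), (∀ p ∈ mid', p.1 = d ∧ lo ≤ p.2 ∧ p.2 < lo + (N + 1)) ∧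
            mid'.length ≤ 3 ∧ Eqw mid mid' := by
        by_cases h2 : (d, lo) ∈ rest
        · have h3 : (d, lo) ∈ rest.reverse := List.mem_reverse.2 h2
          obtain ⟨q, r, hr, hq⟩ := List.eq_append_cons_of_mem h3
          have hr' : rest = r.reverse ++ (d, lo) :: q.reverse := by
            have := congrArg List.reverse hr
            rw [List.reverse_reverse] at this
            rw [this]
            simp
          refine ⟨(d, lo) :: r.reverse ++ [(d, lo)], q.reverse, ?_, by simpa using hq, ?_⟩
          · rw [hr']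
            simp
          · by_cases hne : r.reverse = []
            · rw [hne]
              refine ⟨[(d, lo), (d, lo)], ?_, by simp, Eqw.refl _ (by simp)⟩
              intro p hp
              have : p = (d, lo) := by simpa using hp
              rw [this]
              exact ⟨rfl, le_refl _, by simp⟩
            · obtain ⟨m, hm, hmax⟩ := exists_max r.reverse hne
              have hin : ∀ p ∈ r.reverse, p.1 = d ∧ lo ≤ p.2 ∧ p.2 < lo + (N + 1) := by
                intro p hp
                apply hx
                rw [hx1, hr']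
                simp only [List.mem_append, List.mem_cons]
                exact Or.inr (Or.inr (Or.inl hp))
              refine ⟨[(d, lo), m, (d, lo)], ?_, by simp, eqw_mid _ m _ hm ?_⟩
              · intro p hp
                simp only [List.mem_cons, List.not_mem_nil, or_false] at hp
                rcases hp with rfl | rfl | rfl
                · exact ⟨rfl, le_refl _, by simp⟩
                · exact hin _ hm
                · exact ⟨rfl, le_refl _, by simp⟩
              · intro p hp
                exact ⟨(hin p hp).1, (hin p hp).2.1, hmax p hp⟩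
        · refine ⟨[(d, lo)], rest, rfl, h2, [(d, lo)], ?_, by simp, Eqw.refl _ (by simp)⟩
          intro p hp
          rw [List.mem_singleton.1 hp]
          exact ⟨rfl, le_refl _, by simp⟩
      obtain ⟨mid, suf, e1, hsuf, mid', hm1, hm2, hm3⟩ := key
      have hx2 : x = pre ++ (mid ++ suf) := by rw [hx1, e1]
      obtain ⟨y1, a1, a2, a3⟩ := low pre (by
        intro p hp
        rw [hx2]
        exact List.mem_append_left _ hp) hpre
      obtain ⟨y2, c1, c2, c3⟩ := low suf (by
        intro p hp
        rw [hx2]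
        exact List.mem_append_right _ (List.mem_append_right _ hp)) hsuf
      refine ⟨y1 ++ (mid' ++ y2), ?_, ?_, ?_⟩
      · intro p hp
        rcases List.mem_append.1 hp with hp | hp
        · exact a1 p hp
        · rcases List.mem_append.1 hp with hp | hp
          · exact hm1 p hp
          · exact c1 p hp
      · simp only [List.length_append]
        omega
      · rw [hx2]
        exact Eq0.append a3 (Eq0.append (Or.inr hm3) c3)
    · obtain ⟨y, h1, h2, h3⟩ := low x (fun p hp => hp) hmem
      exact ⟨y, h1, by omega, h3⟩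

theorem typical_aux [PartialOrder δ] (N b : ℕ)
    (hb : ∀ (d : δ) (lo : ℕ) (x : List (δ × ℕ)),
      (∀ p ∈ x, p.1 = d ∧ lo ≤ p.2 ∧ p.2 < lo + N) →
      ∃ y : List (δ × ℕ), (∀ p ∈ y, p.1 = d ∧ lo ≤ p.2 ∧ p.2 < lo + N) ∧ y.length ≤ b ∧
        Eq0 x y) :
    ∀ (n : ℕ) (s : Finset δ), s.card = n → ∀ x : List (δ × ℕ), (∀ p ∈ x, p.1 ∈ s) →
      (x.map Prod.fst).Pairwise (· ≤ ·) → (∀ p ∈ x, p.2 < N) →
      ∃ y : List (δ × ℕ), (∀ p ∈ y, p.2 < N) ∧ y.length ≤ n * b ∧ Eq0 x y := by
  intro n
  induction n with
  | zero =>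
    intro s hs x hx _ _
    rw [Finset.card_eq_zero] at hs
    subst hs
    refine ⟨[], by simp, by simp, Or.inl ⟨?_, rfl⟩⟩
    rcases x with _ | ⟨p, x⟩
    · rfl
    · exact absurd (hx p (by simp)) (by simp)
  | succ n ih =>
    intro s hs x hx hpw hN
    rcases x with _ | ⟨p, x'⟩
    · exact ⟨[], by simp, by simp, Or.inl ⟨rfl, rfl⟩⟩
    · set d := p.1 with hd
      set x := p :: x' with hxdef
      set f : δ × ℕ → Bool := fun q => decide (q.1 = d) with hf
      have hsplit : x = x.takeWhile f ++ x.dropWhile f := (List.takeWhile_append_dropWhile).symm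
      have h1 : ∀ q ∈ x.takeWhile f, q.1 = d := by
        intro q hq
        have := List.mem_takeWhile_imp hq
        simpa [hf] using this
      have hle : ∀ q ∈ x, d ≤ q.1 := by
        intro q hq
        rcases List.mem_cons.1 hq with rfl | hq
        · exact le_refl _
        · rw [hxdef, List.map_cons, List.pairwise_cons] at hpw
          exact hpw.1 q.1 (List.mem_map_of_mem hq)
      have h2 : ∀ q ∈ x.dropWhile f, q.1 ≠ d := by
        rcases hdr : x.dropWhile f with _ | ⟨q0, r⟩
        · simp
        · have hq0 : q0.1 ≠ d := by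
            have hne : x.dropWhile f ≠ [] := by rw [hdr]; simp
            have h3 := List.head_dropWhile_not f (l := x) hne
            have h4 : (x.dropWhile f).head hne = q0 := by
              have : (x.dropWhile f).head? = some q0 := by rw [hdr]; rfl
              rw [List.head?_eq_some_head hne] at this
              exact Option.some.inj this
            rw [h4] at h3
            simpa [hf] using h3
          have hsub : List.Sublist (q0 :: r) x := by
            rw [← hdr]
            exact List.dropWhile_sublist _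
          have hpw2 : ((q0 :: r).map Prod.fst).Pairwise (· ≤ ·) := hpw.sublist (hsub.map _)
          rw [List.map_cons, List.pairwise_cons] at hpw2
          intro q hq
          rcases List.mem_cons.1 hq with rfl | hq
          · exact hq0
          · intro e
            have a1 : q0.1 ≤ q.1 := hpw2.1 q.1 (List.mem_map_of_mem hq)
            have a2 : d ≤ q0.1 := hle q0 (hsub.subset (by simp))
            rw [e] at a1
            exact hq0 (le_antisymm a1 a2)
      have hdr_sub : List.Sublist (x.dropWhile f) x := List.dropWhile_sublist _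
      obtain ⟨y1, b1, b2, b3⟩ := hb d 0 (x.takeWhile f) (by
        intro q hq
        refine ⟨h1 q hq, Nat.zero_le _, ?_⟩
        have := hN q ((List.takeWhile_sublist f).subset hq)
        omega)
      obtain ⟨y2, c1, c2, c3⟩ := ih (s.erase d) (by
          rw [Finset.card_erase_of_mem (hx p (by simp [hxdef])), hs]
          rfl) (x.dropWhile f) (by
          intro q hq
          exact Finset.mem_erase.2 ⟨h2 q hq, hx q (hdr_sub.subset hq)⟩)
        (hpw.sublist (hdr_sub.map _)) (fun q hq => hN q (hdr_sub.subset hq))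
      refine ⟨y1 ++ y2, ?_, ?_, ?_⟩
      · intro q hq
        rcases List.mem_append.1 hq with hq | hq
        · have := b1 q hq
          omega
        · exact c1 q hq
      · rw [List.length_append, Nat.succ_mul]
        omega
      · rw [hsplit]
        exact b3.append c3

theorem typical (δ : Type) [Finite δ] [PartialOrder δ] (N : ℕ) :
    ∃ T : Set (List (δ × ℕ)), T.Finite ∧ ∀ x : List (δ × ℕ), x ≠ [] →
      (x.map Prod.fst).Pairwise (· ≤ ·) → (∀ p ∈ x, p.2 < N) → ∃ y ∈ T, Eqw x y := by
  have := Fintype.ofFinite δ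
  obtain ⟨b, hb⟩ := typical_const (δ := δ) N
  have haux := typical_aux N b hb _ (Finset.univ : Finset δ) rfl
  set n := (Finset.univ : Finset δ).card * b with hn
  refine ⟨(List.map (fun p : δ × Fin N => (p.1, (p.2 : ℕ)))) '' {l | l.length ≤ n},
    (List.finite_length_le (δ × Fin N) n).image _, fun x hx hpw hN => ?_⟩
  obtain ⟨y, h1, h2, h3⟩ := haux x (fun p _ => Finset.mem_univ _) hpw hN
  refine ⟨y, ?_, ?_⟩
  · have hy : y ∈ Set.range (List.map (fun p : δ × Fin N => (p.1, (p.2 : ℕ)))) := by
      rw [Set.range_list_map]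
      intro q hq
      exact ⟨(q.1, ⟨q.2, h1 q hq⟩), rfl⟩
    obtain ⟨l, hl⟩ := hy
    refine ⟨l, ?_, hl⟩
    have : l.length = y.length := by rw [← hl, List.length_map]
    show l.length ≤ n
    omega
  · rcases h3 with ⟨rfl, _⟩ | h3
    · exact absurd rfl hx
    · exact h3

end Pool.Agent.R545.Lc
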