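import Pool.Agent.R545.Lc.State
import Pool.Agent.R545.Lc.Order
import Pool.Agent.R545.Lc.Typ
import Pool.Agent.R545.Lc.Build
import Pool.Agent.R545.Lc.Algo

/-!
# Recognising graphs of bounded linear clique-width
-/

namespace Pool.Agent.R545.Lc

open Classical Pool.Agent.Helper856.Lcw Pool.Agent.Helper856.Cw Pool.Agent.H333R2.Col
  Pool.Agent.H622R2 Pool.Agent.NPC

theorem typical' : Typical := fun δ _ _ N => typical δ N

/-- The layout characterisation of linear clique-width. -/
theorem lcw_le_iff {V : Type} [Finite V] (G : SimpleGraph V) (c : ℕ) :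
    linearCliqueWidth G ≤ c ↔ HasLayout c G := by
  rcases isEmpty_or_nonempty V with hV | hV
  · have : {k | LcwLE G k} = ∅ := by
      rw [Set.eq_empty_iff_forall_notMem]
      rintro k ⟨W, G', l, hb, ⟨e⟩⟩
      exact hV.false (e.symm (linBuilt_nonempty hb).some)
    unfold linearCliqueWidth
    rw [this, Nat.sInf_empty]
    refine iff_of_true (Nat.zero_le _) ⟨[], ?_, ?_⟩
    · exact (Set.eq_empty_of_isEmpty _).symm
    · unfold cnt
      rw [Set.image_empty, Set.ncard_empty]
      exact Nat.zero_le _
  · constructor
    · intro h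
      exact (hasLayout_of_lcwLE (Nat.sInf_mem (exists_lcwLE G))).mono h
    · intro h
      exact Nat.sInf_le (lcwLE_of_hasLayout h)

theorem hasSplits_of_hasLayout {V : Type} [Finite V] {G : SimpleGraph V} {c : ℕ}
    (h : HasLayout c G) : HasSplits (c + 1) G := by
  refine (hasSplits_of_cliqueWidth (c := c) ?_).mono (by omega)
  rcases isEmpty_or_nonempty V with hV | hV
  · have : {k | CwLE G k} = ∅ := by
      rw [Set.eq_empty_iff_forall_notMem]
      rintro k ⟨W, G', l, hb, ⟨e⟩⟩
      have : Nonempty W := by
        clear e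
        induction hb with
        | single i => exact ⟨()⟩
        | union V W G H l m _ _ ih _ => exact ⟨Sum.inl ih.some⟩
        | join V G l i j _ _ ih => exact ih
        | relabel V G l i j _ ih => exact ih
      exact hV.false (e.symm this.some)
    unfold cliqueWidth
    rw [this, Nat.sInf_empty]
    exact Nat.zero_le _
  · exact Nat.sInf_le (cwLE_of_lcwLE (lcwLE_of_hasLayout h))

/-- For every `c`, the graphs of linear clique-width at most `c` can be recognised in polynomial
time. -/
theorem lcw_inPP (c : ℕ) :
    InPP (fun M : List (List Bool) => linearCliqueWidth (matGraph M) ≤ c) := by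
  obtain ⟨m, χ, δ, acc, hδ, hacc⟩ := exists_machine typical' c (2 ^ (6 * (c + 1)))
  exact inPP_of_finite_state (c + 1) m (2 ^ (6 * (c + 1))) (by omega) rfl
    (fun V G => linearCliqueWidth G ≤ c) χ δ
    (fun X V W _ G G1 G2 i j l l1 l2 s f1 f2 => hδ X V W G G1 G2 i j l l1 l2 s f1 f2) acc
    (fun V _ G l => (lcw_le_iff G c).trans (hacc V G l))
    (fun V _ G h => hasSplits_of_hasLayout ((lcw_le_iff G c).mp h))

end Pool.Agent.R545.Lc
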