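import Pool.Agent.R545.Lc.Defs

/-!
# The cost of a vertex in a glued graph
-/

namespace Pool.Agent.R545.Lc

open Classical

/-- Interface data of a side whose labels are in `L`, the labels of the other side being in
`M`. -/
@[ext] structure Dat (L M : Type) where
  fut : Set L
  past : Set L
  Y : Set (L × M)
  Bad : Set (L × M)

variable {V W X L M : Type}

/-- On the vertices outside of `A`, the vertex `v` has the neighbours which a vertex of the other
side with label `m` has. -/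
def Mat (G : SimpleGraph V) (lam : V → L) (r : L → M → Prop) (A : Set V) (v : V) (m : M) : Prop :=
  ∀ w, w ∉ A → (G.Adj v w ↔ r (lam w) m)

/-- The interface data of the side at the prefix `A`. -/
def dat (G : SimpleGraph V) (lam : V → L) (r : L → M → Prop) (A : Set V) : Dat L M where
  fut := lam '' Aᶜ
  past := lam '' A
  Y := {p | ∃ v ∈ A, lam v = p.1 ∧ Mat G lam r A v p.2}
  Bad := {p | ∃ v ∈ A, lam v = p.1 ∧ Mat G lam r A v p.2 ∧ ∃ u ∈ A, r (lam u) p.2 ∧ ¬ G.Adj v u}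

/-- The row of a vertex. -/
def row (G : SimpleGraph V) (lam : V → L) (r : L → M → Prop) (A : Set V) (F : Set M) (v : V) :
    Set V × Set M := (nb G A v, {m | m ∈ F ∧ r (lam v) m})

/-- The number of rows. -/
noncomputable def alpha (G : SimpleGraph V) (lam : V → L) (r : L → M → Prop) (A : Set V)
    (F : Set M) : ℕ := (row G lam r A F '' A).ncard

/-- The rows which appear on both sides. -/
def ovrow (r : L → M → Prop) (F1 : Set L) (F2 : Set M) (p : L × M) : Set L × Set M :=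
  ({l | l ∈ F1 ∧ r l p.2}, {m | m ∈ F2 ∧ r p.1 m})

/-- The number of rows which appear on both sides. -/
noncomputable def ov (r : L → M → Prop) (d1 : Dat L M) (d2 : Dat M L) : ℕ :=
  (ovrow r d1.fut d2.fut '' {p | p ∈ d1.Y ∧ (p.2, p.1) ∈ d2.Y}).ncard

/-- Immediate mergeability, expressed by the data of the other side. -/
def ImmS (G : SimpleGraph V) (lam : V → L) (r : L → M → Prop) (A : Set V) (v : V)
    (d : Dat M L) : Prop :=
  ((∃ p ∈ A, row G lam r A d.fut p = row G lam r A d.fut v) ∨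
      ∃ m, (m, lam v) ∈ d.Y ∧ Mat G lam r A v m) ∧
    (∀ p ∈ A, row G lam r A d.fut p = row G lam r A d.fut v →
      (∀ w ∈ A, G.Adj v w → G.Adj p w) ∧ ∀ m ∈ d.past, r (lam v) m → r (lam p) m) ∧
    ∀ m, (m, lam v) ∈ d.Y → Mat G lam r A v m →
      (∀ w ∈ A, G.Adj v w → r (lam w) m) ∧ (m, lam v) ∉ d.Bad

section

variable {G : SimpleGraph X} {G1 : SimpleGraph V} {G2 : SimpleGraph W} {i : V → X} {j : W → X}
  {lam1 : V → L} {lam2 : W → M} {r : L → M → Prop}

theorem ov_swap (r : L → M → Prop) (d1 : Dat L M) (d2 : Dat M L) :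
    ov (fun m l => r l m) d2 d1 = ov r d1 d2 := by
  unfold ov
  rw [← Set.ncard_image_of_injective _ (Prod.swap_injective (α := Set L) (β := Set M))]
  congr 1
  ext ⟨P, Q⟩
  constructor
  · rintro ⟨⟨m, l⟩, ⟨h1, h2⟩, he⟩
    refine ⟨(Q, P), ⟨(l, m), ⟨h2, h1⟩, ?_⟩, rfl⟩
    rw [ovrow, Prod.mk.injEq] at he
    rw [ovrow, Prod.mk.injEq]
    exact ⟨he.2, he.1⟩
  · rintro ⟨⟨Q', P'⟩, ⟨⟨l, m⟩, ⟨h1, h2⟩, he⟩, he'⟩
    refine ⟨(m, l), ⟨h2, h1⟩, ?_⟩
    rw [Prod.swap_prod_mk, Prod.mk.injEq] at he'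
    rw [ovrow, Prod.mk.injEq] at he
    rw [ovrow, Prod.mk.injEq]
    exact ⟨he.2.trans he'.1, he.1.trans he'.2⟩

variable (h : Glued G G1 G2 i j (fun v w => r (lam1 v) (lam2 w)))

include h

/-- The prefix of the glued graph. -/
theorem Glued.mem1 (A1 : Set V) (A2 : Set W) (v : V) : i v ∈ i '' A1 ∪ j '' A2 ↔ v ∈ A1 := by
  constructor
  · rintro (⟨u, hu, he⟩ | ⟨u, hu, he⟩)
    · rwa [← h.inj1 he]
    · exact absurd he.symm (h.disj v u)
  · exact fun hv => Or.inl ⟨v, hv, rfl⟩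

theorem Glued.mem2 (A1 : Set V) (A2 : Set W) (w : W) : j w ∈ i '' A1 ∪ j '' A2 ↔ w ∈ A2 := by
  constructor
  · rintro (⟨u, hu, he⟩ | ⟨u, hu, he⟩)
    · exact absurd he (h.disj u w)
    · rwa [← h.inj2 he]
  · exact fun hv => Or.inr ⟨w, hv, rfl⟩

theorem Glued.adj21 (w : W) (v : V) : G.Adj (j w) (i v) ↔ r (lam1 v) (lam2 w) := by
  rw [G.adj_comm, h.adj12]

theorem glued_nb1 (A1 : Set V) (A2 : Set W) (v : V) :
    nb G (i '' A1 ∪ j '' A2) (i v) = i '' (nb G1 A1 v) ∪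
      j '' {w | w ∉ A2 ∧ r (lam1 v) (lam2 w)} := by
  ext x
  rcases h.cover x with ⟨u, rfl⟩ | ⟨w, rfl⟩
  · rw [h.mem1]
    simp only [nb, Set.mem_ofPred_eq, h.adj1, h.mem1]
  · rw [h.mem2]
    simp only [nb, Set.mem_ofPred_eq, h.adj12, h.mem2]
    exact and_comm

theorem glued_nb2 (A1 : Set V) (A2 : Set W) (w : W) :
    nb G (i '' A1 ∪ j '' A2) (j w) = i '' {v | v ∉ A1 ∧ r (lam1 v) (lam2 w)} ∪
      j '' (nb G2 A2 w) := by
  ext x
  rcases h.cover x with ⟨u, rfl⟩ | ⟨w, rfl⟩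
  · rw [h.mem1]
    simp only [nb, Set.mem_ofPred_eq, h.adj21, h.mem1]
    exact and_comm
  · rw [h.mem2]
    simp only [nb, Set.mem_ofPred_eq, h.adj2, h.mem2]

theorem glued_union_inj {P P' : Set V} {Q Q' : Set W} (he : i '' P ∪ j '' Q = i '' P' ∪ j '' Q') :
    P = P' ∧ Q = Q' := by
  constructor
  · ext v
    rw [← h.mem1 P Q, he, h.mem1]
  · ext w
    rw [← h.mem2 P Q, he, h.mem2]

theorem glued_nb11 (A1 : Set V) (A2 : Set W) (v v' : V) :
    nb G (i '' A1 ∪ j '' A2) (i v) = nb G (i '' A1 ∪ j '' A2) (i v') ↔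
      row G1 lam1 r A1 (lam2 '' A2ᶜ) v = row G1 lam1 r A1 (lam2 '' A2ᶜ) v' := by
  rw [glued_nb1 h, glued_nb1 h, row, row, Prod.mk.injEq]
  constructor
  · intro he
    obtain ⟨h1, h2⟩ := glued_union_inj h he
    refine ⟨h1, ?_⟩
    ext m
    simp only [Set.mem_ofPred_eq]
    refine and_congr_right ?_
    rintro ⟨w, hw, rfl⟩
    have h3 := Set.ext_iff.mp h2 w
    simp only [Set.mem_ofPred_eq] at h3
    constructor
    · exact fun h4 => (h3.mp ⟨hw, h4⟩).2
    · exact fun h4 => (h3.mpr ⟨hw, h4⟩).2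
  · rintro ⟨h1, h2⟩
    have h3 : {w | w ∉ A2 ∧ r (lam1 v) (lam2 w)} = {w | w ∉ A2 ∧ r (lam1 v') (lam2 w)} := by
      ext w
      simp only [Set.mem_ofPred_eq]
      refine and_congr_right fun hw => ?_
      have h3 := Set.ext_iff.mp h2 (lam2 w)
      simp only [Set.mem_ofPred_eq] at h3
      have hw' : lam2 w ∈ lam2 '' A2ᶜ := ⟨w, hw, rfl⟩
      constructor
      · exact fun h4 => (h3.mp ⟨hw', h4⟩).2
      · exact fun h4 => (h3.mpr ⟨hw', h4⟩).2
    rw [h1, h3]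

theorem glued_nb12 (A1 : Set V) (A2 : Set W) (v : V) (w : W) :
    nb G (i '' A1 ∪ j '' A2) (j w) = nb G (i '' A1 ∪ j '' A2) (i v) ↔
      Mat G1 lam1 r A1 v (lam2 w) ∧ Mat G2 lam2 (fun m l => r l m) A2 w (lam1 v) := by
  rw [glued_nb1 h, glued_nb2 h]
  constructor
  · intro he
    obtain ⟨h1, h2⟩ := glued_union_inj h he
    constructor
    · intro u hu
      have h3 := Set.ext_iff.mp h1 u
      simp only [Set.mem_ofPred_eq, nb] at h3
      tauto
    · intro u hu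
      have h3 := Set.ext_iff.mp h2 u
      simp only [Set.mem_ofPred_eq, nb] at h3
      tauto
  · rintro ⟨h1, h2⟩
    congr 2
    · ext u
      simp only [Set.mem_ofPred_eq, nb]
      constructor
      · rintro ⟨hu, h3⟩
        exact ⟨(h1 u hu).mpr h3, hu⟩
      · rintro ⟨h3, hu⟩
        exact ⟨hu, (h1 u hu).mp h3⟩
    · ext u
      simp only [Set.mem_ofPred_eq, nb]
      constructor
      · rintro ⟨h3, hu⟩
        exact ⟨hu, (h2 u hu).mp h3⟩
      · rintro ⟨hu, h3⟩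
        exact ⟨(h2 u hu).mpr h3, hu⟩

/-- Two functions with the same fibres have images of the same size. -/
theorem ncard_image_congr {α β γ : Type} {S : Set α} {f : α → β} {g : α → γ}
    (hfg : ∀ a ∈ S, ∀ b ∈ S, (f a = f b ↔ g a = g b)) : (f '' S).ncard = (g '' S).ncard := by
  refine Set.ncard_congr (fun x hx => g hx.choose) ?_ ?_ ?_
  · intro x hx
    exact ⟨_, hx.choose_spec.1, rfl⟩
  · intro x y hx hy he
    have h1 := hx.choose_spec
    have h2 := hy.choose_spec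
    rw [← h1.2, ← h2.2]
    exact (hfg _ h1.1 _ h2.1).mpr he
  · rintro _ ⟨a, ha, rfl⟩
    refine ⟨f a, ⟨a, ha, rfl⟩, ?_⟩
    have h1 : ∃ b, b ∈ S ∧ f b = f a := ⟨a, ha, rfl⟩
    have h2 := (show f a ∈ f '' S from ⟨a, ha, rfl⟩ : f a ∈ f '' S).choose_spec
    exact (hfg _ h2.1 _ ha).mp h2.2

theorem glued_cnt [Finite X] (A1 : Set V) (A2 : Set W) :
    cnt G (i '' A1 ∪ j '' A2) + ov r (dat G1 lam1 r A1) (dat G2 lam2 (fun m l => r l m) A2) =
      alpha G1 lam1 r A1 (dat G2 lam2 (fun m l => r l m) A2).fut +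
        alpha G2 lam2 (fun m l => r l m) A2 (dat G1 lam1 r A1).fut := by
  set A : Set X := i '' A1 ∪ j '' A2 with hA
  have hfin : ∀ s : Set (Set X), s.Finite := fun s => Set.toFinite s
  have h1 : cnt G A = ((nb G A '' (i '' A1)) ∪ (nb G A '' (j '' A2))).ncard := by
    unfold cnt
    rw [← Set.image_union, ← hA]
  have h2 : (nb G A '' (i '' A1)).ncard =
      alpha G1 lam1 r A1 (dat G2 lam2 (fun m l => r l m) A2).fut := by
    unfold alpha
    rw [Set.image_image]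
    exact ncard_image_congr h fun a _ b _ => glued_nb11 h A1 A2 a b
  have h3 : (nb G A '' (j '' A2)).ncard =
      alpha G2 lam2 (fun m l => r l m) A2 (dat G1 lam1 r A1).fut := by
    unfold alpha
    rw [Set.image_image]
    refine ncard_image_congr h fun a _ b _ => ?_
    have := glued_nb11 (r := fun m l => r l m) (lam1 := lam2) (lam2 := lam1) h.swap A2 A1 a b
    rw [Set.union_comm] at this
    exact this
  have h4 : ((nb G A '' (i '' A1)) ∩ (nb G A '' (j '' A2))).ncard =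
      ov r (dat G1 lam1 r A1) (dat G2 lam2 (fun m l => r l m) A2) := by
    unfold ov
    set S : Set (L × M) := {p | p ∈ (dat G1 lam1 r A1).Y ∧
      (p.2, p.1) ∈ (dat G2 lam2 (fun m l => r l m) A2).Y} with hS
    have h5 : (nb G A '' (i '' A1)) ∩ (nb G A '' (j '' A2)) =
        (fun p : L × M => i '' {v | v ∉ A1 ∧ r (lam1 v) p.2} ∪
          j '' {w | w ∉ A2 ∧ r p.1 (lam2 w)}) '' S := by
      ext x
      constructor
      · rintro ⟨⟨_, ⟨v, hv, rfl⟩, rfl⟩, ⟨_, ⟨w, hw, rfl⟩, he⟩⟩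
        have h6 := (glued_nb12 h A1 A2 v w).mp he
        refine ⟨(lam1 v, lam2 w), ⟨⟨v, hv, rfl, h6.1⟩, ⟨w, hw, rfl, h6.2⟩⟩, ?_⟩
        have h7 := glued_nb1 h A1 A2 v
        have h8 := glued_nb2 h A1 A2 w
        rw [← hA] at h7 h8
        have h9 := h7.symm.trans (he.symm.trans h8)
        obtain ⟨h10, h11⟩ := glued_union_inj h h9
        simp only
        rw [h7, ← h10]
      · rintro ⟨⟨l, m⟩, ⟨⟨v, hv, hvl, hvm⟩, ⟨w, hw, hwl, hwm⟩⟩, rfl⟩
        simp only at hvl hvm hwl hwm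
        subst hvl
        subst hwl
        have he := (glued_nb12 h A1 A2 v w).mpr ⟨hvm, hwm⟩
        have h7 := glued_nb1 h A1 A2 v
        have h8 := glued_nb2 h A1 A2 w
        rw [← hA] at h7 h8 he
        have h9 := h7.symm.trans (he.symm.trans h8)
        obtain ⟨h10, h11⟩ := glued_union_inj h h9
        simp only
        rw [← h10, ← h7]
        exact ⟨⟨i v, ⟨v, hv, rfl⟩, rfl⟩, ⟨j w, ⟨w, hw, rfl⟩, he⟩⟩
    rw [h5]
    refine ncard_image_congr h fun p _ q _ => ?_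
    simp only [ovrow, Prod.mk.injEq]
    constructor
    · intro he
      obtain ⟨h6, h7⟩ := glued_union_inj h he
      constructor
      · ext l
        simp only [Set.mem_ofPred_eq]
        refine and_congr_right ?_
        rintro ⟨v, hv, rfl⟩
        have h8 := Set.ext_iff.mp h6 v
        simp only [Set.mem_ofPred_eq] at h8
        have hv' : v ∉ A1 := hv
        tauto
      · ext l
        simp only [Set.mem_ofPred_eq]
        refine and_congr_right ?_
        rintro ⟨v, hv, rfl⟩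
        have h8 := Set.ext_iff.mp h7 v
        simp only [Set.mem_ofPred_eq] at h8
        have hv' : v ∉ A2 := hv
        tauto
    · rintro ⟨h6, h7⟩
      congr 2
      · ext v
        have h8 := Set.ext_iff.mp h6 (lam1 v)
        simp only [Set.mem_ofPred_eq] at h8 ⊢
        refine and_congr_right fun hv => ?_
        have hv' : lam1 v ∈ (dat G1 lam1 r A1).fut := ⟨v, hv, rfl⟩
        tauto
      · ext v
        have h8 := Set.ext_iff.mp h7 (lam2 v)
        simp only [Set.mem_ofPred_eq] at h8 ⊢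
        refine and_congr_right fun hv => ?_
        have hv' : lam2 v ∈ (dat G2 lam2 (fun m l => r l m) A2).fut := ⟨v, hv, rfl⟩
        tauto
  rw [h1, ← h2, ← h3, ← h4]
  exact Set.ncard_union_add_ncard_inter _ _ (hfin _) (hfin _)

theorem glued_imm (A1 : Set V) (A2 : Set W) (v : V) :
    Imm G (i '' A1 ∪ j '' A2) (i v) ↔
      ImmS G1 lam1 r A1 v (dat G2 lam2 (fun m l => r l m) A2) := by
  have hfut : (dat G2 lam2 (fun m l => r l m) A2).fut = lam2 '' A2ᶜ := rfl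
  constructor
  · rintro ⟨h1, h2⟩
    refine ⟨?_, ?_, ?_⟩
    · obtain ⟨p, hp, hpn⟩ := h1
      rcases hp with ⟨p, hp, rfl⟩ | ⟨p, hp, rfl⟩
      · exact Or.inl ⟨p, hp, (glued_nb11 h A1 A2 p v).mp hpn⟩
      · obtain ⟨h3, h4⟩ := (glued_nb12 h A1 A2 v p).mp hpn
        exact Or.inr ⟨lam2 p, ⟨p, hp, rfl, h4⟩, h3⟩
    · intro p hp hpr
      have h3 := h2 (i p) (Or.inl ⟨p, hp, rfl⟩) ((glued_nb11 h A1 A2 p v).mpr hpr)
      constructor
      · intro w hw hvw
        exact (h.adj1 _ _).mp (h3 (i w) (Or.inl ⟨w, hw, rfl⟩) ((h.adj1 _ _).mpr hvw))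
      · rintro m ⟨w, hw, rfl⟩ hm
        exact (h.adj12 _ _).mp (h3 (j w) (Or.inr ⟨w, hw, rfl⟩) ((h.adj12 _ _).mpr hm))
    · rintro m ⟨p, hp, hpm, hpM⟩ hm
      simp only at hpm hpM
      subst hpm
      have h3 := h2 (j p) (Or.inr ⟨p, hp, rfl⟩) ((glued_nb12 h A1 A2 v p).mpr ⟨hm, hpM⟩)
      constructor
      · intro w hw hvw
        exact (h.adj21 _ _).mp (h3 (i w) (Or.inl ⟨w, hw, rfl⟩) ((h.adj1 _ _).mpr hvw))
      · rintro ⟨q, hq, hqm, hqM, u, hu, hru, hnu⟩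
        simp only at hqm hqM hru
        rw [← hqm] at hm
        have h4 := h2 (j q) (Or.inr ⟨q, hq, rfl⟩) ((glued_nb12 h A1 A2 v q).mpr ⟨hm, hqM⟩)
        exact hnu ((h.adj2 _ _).mp (h4 (j u) (Or.inr ⟨u, hu, rfl⟩) ((h.adj12 _ _).mpr hru)))
  · rintro ⟨h1, h2, h3⟩
    refine ⟨?_, ?_⟩
    · rcases h1 with ⟨p, hp, hpr⟩ | ⟨m, ⟨p, hp, hpm, hpM⟩, hm⟩
      · exact ⟨i p, Or.inl ⟨p, hp, rfl⟩, (glued_nb11 h A1 A2 p v).mpr hpr⟩
      · simp only at hpm hpM
        subst hpm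
        exact ⟨j p, Or.inr ⟨p, hp, rfl⟩, (glued_nb12 h A1 A2 v p).mpr ⟨hm, hpM⟩⟩
    · rintro _ (⟨p, hp, rfl⟩ | ⟨p, hp, rfl⟩) hpn _ (⟨w, hw, rfl⟩ | ⟨w, hw, rfl⟩) hvw
      · rw [h.adj1] at hvw ⊢
        exact (h2 p hp ((glued_nb11 h A1 A2 p v).mp hpn)).1 w hw hvw
      · rw [h.adj12] at hvw ⊢
        exact (h2 p hp ((glued_nb11 h A1 A2 p v).mp hpn)).2 _ ⟨w, hw, rfl⟩ hvw
      · obtain ⟨h4, h5⟩ := (glued_nb12 h A1 A2 v p).mp hpn
        rw [h.adj21]
        rw [h.adj1] at hvw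
        exact (h3 (lam2 p) ⟨p, hp, rfl, h5⟩ h4).1 w hw hvw
      · obtain ⟨h4, h5⟩ := (glued_nb12 h A1 A2 v p).mp hpn
        rw [h.adj2]
        rw [h.adj12] at hvw
        have h6 := (h3 (lam2 p) ⟨p, hp, rfl, h5⟩ h4).2
        by_contra hcon
        exact h6 ⟨p, hp, rfl, h5, w, hw, hvw, hcon⟩

end

end Pool.Agent.R545.Lc
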