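import Pool.Agent.R545.Lc.Walk

/-!
# Finite index
-/

namespace Pool.Agent.R545.Lc

open Classical

variable {V W X L M : Type}

instance : PartialOrder (Dat L M) where
  le d d' := d'.fut ⊆ d.fut ∧ d.past ⊆ d'.past ∧ d.Y ⊆ d'.Y ∧ d.Bad ⊆ d'.Bad
  le_refl d := ⟨Set.Subset.rfl, Set.Subset.rfl, Set.Subset.rfl, Set.Subset.rfl⟩
  le_trans a b c h h' := ⟨h'.1.trans h.1, h.2.1.trans h'.2.1, h.2.2.1.trans h'.2.2.1,
    h.2.2.2.trans h'.2.2.2⟩
  le_antisymm a b h h' := by
    ext1
    · exact h'.1.antisymm h.1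
    · exact h.2.1.antisymm h'.2.1
    · exact h.2.2.1.antisymm h'.2.2.1
    · exact h.2.2.2.antisymm h'.2.2.2

instance [Finite L] [Finite M] : Finite (Dat L M) := by
  refine Finite.of_injective
    (fun d : Dat L M => ((d.fut, d.past, d.Y, d.Bad) : Set L × Set L × Set (L × M) × Set (L × M)))
    ?_
  intro a b h
  simp only [Prod.mk.injEq] at h
  ext1
  · exact h.1
  · exact h.2.1
  · exact h.2.2.1
  · exact h.2.2.2

theorem Mat.mono {G : SimpleGraph V} {lam : V → L} {r : L → M → Prop} {A A' : Set V}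
    (h : A ⊆ A') {v : V} {m : M} (hm : Mat G lam r A v m) : Mat G lam r A' v m :=
  fun w hw => hm w fun hw' => hw (h hw')

theorem dat_mono (G : SimpleGraph V) (lam : V → L) (r : L → M → Prop) {A A' : Set V}
    (h : A ⊆ A') : dat G lam r A ≤ dat G lam r A' := by
  refine ⟨?_, ?_, ?_, ?_⟩
  · exact Set.image_mono (Set.compl_subset_compl.mpr h)
  · exact Set.image_mono h
  · rintro p ⟨v, hv, hp, hm⟩
    exact ⟨v, h hv, hp, hm.mono h⟩
  · rintro p ⟨v, hv, hp, hm, u, hu, h1, h2⟩
    exact ⟨v, h hv, hp, hm.mono h, u, h hu, h1, h2⟩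

theorem word_ge (G : SimpleGraph V) (lam : V → L) (r : L → M → Prop) (l : List V) :
    ∀ A : Set V, ∀ p ∈ word G lam r A l, dat G lam r A ≤ p.1 := by
  induction l with
  | nil =>
    intro A p hp
    rw [word, List.mem_singleton] at hp
    rw [hp]
    exact le_refl _
  | cons v l ih =>
    intro A p hp
    rw [word, List.mem_cons, List.mem_cons] at hp
    rcases hp with rfl | rfl | hp
    · exact le_refl _
    · exact le_refl _
    · exact (dat_mono G lam r (Set.subset_insert v A)).trans (ih _ p hp)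

theorem word_mono (G : SimpleGraph V) (lam : V → L) (r : L → M → Prop) (l : List V) :
    ∀ A : Set V, Mono (word G lam r A l) := by
  induction l with
  | nil =>
    intro A
    unfold Mono
    simp [word]
  | cons v l ih =>
    intro A
    have h1 := ih (insert v A)
    have h2 : ∀ q ∈ (word G lam r (insert v A) l).map Prod.fst, dat G lam r A ≤ q := by
      intro q hq
      rw [List.mem_map] at hq
      obtain ⟨p, hp, rfl⟩ := hq
      exact (dat_mono G lam r (Set.subset_insert v A)).trans (word_ge G lam r l _ p hp)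
    unfold Mono at h1 ⊢
    rw [word, List.map_cons, List.map_cons, List.pairwise_cons, List.pairwise_cons]
    refine ⟨?_, ?_, h1⟩
    · intro q hq
      rw [List.mem_cons] at hq
      rcases hq with rfl | hq
      · exact le_refl _
      · exact h2 q hq
    · exact h2

theorem Lay.cover {l : List V} : ∀ {A : Set V}, Lay A l → A ∪ {v | v ∈ l} = Set.univ := by
  induction l with
  | nil =>
    intro A h
    simp only [Lay] at h
    rw [h, Set.univ_union]
  | cons v l ih =>
    intro A h
    have := ih h.2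
    rw [← this]
    ext x
    simp only [Set.mem_union, Set.mem_ofPred_eq, List.mem_cons, Set.mem_insert_iff]
    tauto

theorem Lay.finite {l : List V} (h : Lay ∅ l) : Finite V := by
  have h1 := h.cover
  rw [Set.empty_union] at h1
  rw [← Set.finite_univ_iff, ← h1]
  exact List.finite_toSet l

theorem GoodL.lay {c : ℕ} {G : SimpleGraph V} {l : List V} :
    ∀ {A : Set V}, GoodL c G A l → Lay A l := by
  induction l with
  | nil => exact fun h => h.1
  | cons v l ih => exact fun h => ⟨h.1, ih h.2.2⟩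

theorem HasLayout.finite {c : ℕ} {G : SimpleGraph V} (h : HasLayout c G) : Finite V := by
  obtain ⟨l, hl⟩ := h
  exact hl.lay.finite

theorem GoodL.mono {c c' : ℕ} (hc : c ≤ c') {G : SimpleGraph V} {l : List V} :
    ∀ {A : Set V}, GoodL c G A l → GoodL c' G A l := by
  induction l with
  | nil => exact fun h => ⟨h.1, h.2.trans hc⟩
  | cons v l ih => exact fun h => ⟨h.1, h.2.1.trans hc, ih h.2.2⟩

theorem HasLayout.mono {c c' : ℕ} (hc : c ≤ c') {G : SimpleGraph V} (h : HasLayout c G) :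
    HasLayout c' G := by
  obtain ⟨l, hl⟩ := h
  exact ⟨l, hl.mono hc⟩

theorem finite_lists {α : Type} {S : Set α} (hS : S.Finite) (n : ℕ) :
    {t : List α | t.length ≤ n ∧ ∀ p ∈ t, p ∈ S}.Finite := by
  have : Finite S := hS
  refine (List.finite_length_le S n).image (List.map Subtype.val) |>.subset ?_
  rintro t ⟨h1, h2⟩
  refine ⟨t.attach.map (fun p => ⟨p.1, h2 p.1 p.2⟩), ?_, ?_⟩
  · simpa using h1
  · rw [List.map_map]
    exact List.attach_map_subtype_val t

/-- The statement of the lemma on typical sequences. -/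
def Typical : Prop := ∀ (δ : Type) [Finite δ] [PartialOrder δ] (N : ℕ),
    ∃ T : Set (List (δ × ℕ)), T.Finite ∧ ∀ x : List (δ × ℕ), x ≠ [] →
      (x.map Prod.fst).Pairwise (· ≤ ·) → (∀ p ∈ x, p.2 < N) → ∃ y ∈ T, Eqw x y

theorem exists_index (hTyp : Typical) (c : ℕ) (L : Type) [Finite L] :
    ∃ (I : Type) (_ : Finite I) (ch : ∀ V : Type, SimpleGraph V → (V → L) → I),
      ∀ (V V' W X X' : Type) (G1 : SimpleGraph V) (lam1 : V → L) (G1' : SimpleGraph V')
        (lam1' : V' → L) (G2 : SimpleGraph W) (lam2 : W → Set L) (G : SimpleGraph X)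
        (G' : SimpleGraph X') (i : V → X) (j : W → X) (i' : V' → X') (j' : W → X'),
        Glued G G1 G2 i j (fun v w => lam1 v ∈ lam2 w) →
        Glued G' G1' G2 i' j' (fun v w => lam1' v ∈ lam2 w) →
        ch V G1 lam1 = ch V' G1' lam1' → HasLayout c G → HasLayout c G' := by
  set r : L → Set L → Prop := fun a s => a ∈ s with hr
  set P := Dat L (Set L)
  set Q := Dat (Set L) L
  -- a bound for the overlap
  obtain ⟨N, hN⟩ : ∃ N, ∀ (p : P) (q : Q), c + ov r p q < N := by
    obtain ⟨m, hm⟩ := (Set.finite_range (fun z : P × Q => ov r z.1 z.2)).bddAbove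
    refine ⟨c + m + 1, fun p q => ?_⟩
    have := hm ⟨(p, q), rfl⟩
    simp only at this
    omega
  obtain ⟨T, hTf, hT⟩ := hTyp P (N + 1)
  set n := Nat.card Q with hn
  set TT : Set (List (Q × List (P × ℕ))) := {t | t.length ≤ n ∧ ∀ p ∈ t, p ∈
    {p : Q × List (P × ℕ) | p.2 ∈ T}} with hTT
  have hTTf : TT.Finite := by
    refine finite_lists ?_ n
    have : {p : Q × List (P × ℕ) | p.2 ∈ T} = Set.univ ×ˢ T := by
      ext p
      simp
    rw [this]
    exact Set.Finite.prod (Set.toFinite _) hTf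
  have hfin : Finite TT := hTTf
  refine ⟨Set TT, inferInstance, fun V G lam => {t | ∃ l, Lay ∅ l ∧ Ch N (word G lam r ∅ l) t.1},
    ?_⟩
  intro V V' W X X' G1 lam1 G1' lam1' G2 lam2 G G' i j i' j' hg hg' he hl
  have hX := hl.finite
  have hW : Finite W := Finite.of_injective j hg.inj2
  obtain ⟨l1, l2, h1, h2, h3⟩ := (hasLayout_iff (r := r) hg).mp hl
  have h3' : NW (okG c (fun p q => ov r p q)) (word G1 lam1 r ∅ l1)
      (word G2 lam2 (fun m l => r l m) ∅ l2) := h3
  obtain ⟨t, ht1, -, ht2, ht3, ht4⟩ := exists_char (c := c) (N := N) (o := fun p q => ov r p q)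
    hN (T := T) hT n (word G2 lam2 (fun m l => r l m) ∅ l2) h3.ne2 (word_mono _ _ _ _ _)
    (by
      have : Fintype Q := Fintype.ofFinite Q
      rw [hn, Nat.card_eq_fintype_card]
      exact Finset.card_le_univ _)
    (word G1 lam1 r ∅ l1) (word_mono _ _ _ _ _) h3'
  have htt : t ∈ TT := ⟨ht1, ht2⟩
  have hmem : (⟨t, htt⟩ : TT) ∈ {t : TT | ∃ l, Lay ∅ l ∧ Ch N (word G1 lam1 r ∅ l) t.1} :=
    ⟨l1, h1, ht3⟩
  simp only at he
  rw [he] at hmem
  obtain ⟨l1', h1', ht3'⟩ := hmem
  have hV' := h1'.finite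
  have hX' : Finite X' := by
    refine Finite.of_surjective (Sum.elim i' j') ?_
    intro x
    rcases hg'.cover x with ⟨v, rfl⟩ | ⟨w, rfl⟩
    · exact ⟨Sum.inl v, rfl⟩
    · exact ⟨Sum.inr w, rfl⟩
  exact (hasLayout_iff (r := r) hg').mpr ⟨l1', l2, h1', h2, ht4 _ ht3'⟩

end Pool.Agent.R545.Lc
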