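import Pool.Agent.R545.Lc.Index

/-!
# The equivalence of labelled graphs, a congruence of finite index
-/

namespace Pool.Agent.R545.Lc

open Classical

variable {V W X L M : Type}

/-- The canonical glued graph. -/
def cg (G1 : SimpleGraph V) (G2 : SimpleGraph W) (r : V → W → Prop) : SimpleGraph (V ⊕ W) where
  Adj x y := match x, y with
    | Sum.inl u, Sum.inl v => G1.Adj u v
    | Sum.inr u, Sum.inr v => G2.Adj u v
    | Sum.inl u, Sum.inr v => r u v
    | Sum.inr u, Sum.inl v => r v u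
  symm := by
    refine ⟨?_⟩
    rintro (u | u) (v | v) h
    · exact h.symm
    · exact h
    · exact h
    · exact h.symm
  loopless := by
    refine ⟨?_⟩
    rintro (u | u) h
    · exact G1.loopless.irrefl u h
    · exact G2.loopless.irrefl u h

theorem glued_cg (G1 : SimpleGraph V) (G2 : SimpleGraph W) (r : V → W → Prop) :
    Glued (cg G1 G2 r) G1 G2 Sum.inl Sum.inr r where
  inj1 := Sum.inl_injective
  inj2 := Sum.inr_injective
  disj := fun v w h => by cases h
  cover := by
    rintro (v | w)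
    · exact Or.inl ⟨v, rfl⟩
    · exact Or.inr ⟨w, rfl⟩
  adj1 := fun _ _ => Iff.rfl
  adj2 := fun _ _ => Iff.rfl
  adj12 := fun _ _ => Iff.rfl

/-- Gluing is unique up to isomorphism; a form with layouts. -/
theorem hasLayout_congr {X' : Type} {c : ℕ} {G : SimpleGraph X} {G' : SimpleGraph X'}
    {G1 : SimpleGraph V} {G2 : SimpleGraph W} {i : V → X} {j : W → X} {i' : V → X'} {j' : W → X'}
    {r : V → W → Prop} (h : Glued G G1 G2 i j r) (h' : Glued G' G1 G2 i' j' r)
    (hl : HasLayout c G) : HasLayout c G' := by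
  have hX := hl.finite
  have hV : Finite V := Finite.of_injective i h.inj1
  have hW : Finite W := Finite.of_injective j h.inj2
  have hX' : Finite X' := by
    refine Finite.of_surjective (Sum.elim i' j') ?_
    intro x
    rcases h'.cover x with ⟨v, rfl⟩ | ⟨w, rfl⟩
    · exact ⟨Sum.inl v, rfl⟩
    · exact ⟨Sum.inr w, rfl⟩
  have h1 : Glued G G1 G2 i j (fun v w => r (id v) (id w)) := h
  have h2 : Glued G' G1 G2 i' j' (fun v w => r (id v) (id w)) := h'
  rw [hasLayout_iff h1] at hl
  rw [hasLayout_iff h2]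
  exact hl

/-- The labelled graphs cannot be distinguished by gluing. -/
def Eqv (c : ℕ) {V V' : Type} (G : SimpleGraph V) (lam : V → L) (G' : SimpleGraph V')
    (lam' : V' → L) : Prop :=
  ∀ (W : Type) (G2 : SimpleGraph W) (lam2 : W → Set L),
    HasLayout c (cg G G2 (fun v w => lam v ∈ lam2 w)) ↔
      HasLayout c (cg G' G2 (fun v w => lam' v ∈ lam2 w))

variable {V' X' : Type} {c : ℕ}

theorem Eqv.refl (G : SimpleGraph V) (lam : V → L) : Eqv c G lam G lam := fun _ _ _ => Iff.rfl

theorem Eqv.symm {G : SimpleGraph V} {lam : V → L} {G' : SimpleGraph V'} {lam' : V' → L}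
    (h : Eqv c G lam G' lam') : Eqv c G' lam' G lam := fun W G2 lam2 => (h W G2 lam2).symm

theorem Eqv.trans {V'' : Type} {G : SimpleGraph V} {lam : V → L} {G' : SimpleGraph V'}
    {lam' : V' → L} {G'' : SimpleGraph V''} {lam'' : V'' → L}
    (h : Eqv c G lam G' lam') (h' : Eqv c G' lam' G'' lam'') : Eqv c G lam G'' lam'' :=
  fun W G2 lam2 => (h W G2 lam2).trans (h' W G2 lam2)

/-- The use of the equivalence. -/
theorem Eqv.use {G : SimpleGraph V} {lam : V → L} {G' : SimpleGraph V'} {lam' : V' → L}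
    (h : Eqv c G lam G' lam') {X X' : Type} {H : SimpleGraph X} {H' : SimpleGraph X'}
    {G2 : SimpleGraph W} {r : L → W → Prop} {i : V → X} {j : W → X} {i' : V' → X'} {j' : W → X'}
    (hg : Glued H G G2 i j (fun v w => r (lam v) w))
    (hg' : Glued H' G' G2 i' j' (fun v w => r (lam' v) w)) :
    HasLayout c H ↔ HasLayout c H' := by
  have h1 := h W G2 (fun w => {l | r l w})
  constructor
  · intro hl
    exact hasLayout_congr (glued_cg _ _ _) hg' (h1.mp (hasLayout_congr hg (glued_cg _ _ _) hl))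
  · intro hl
    exact hasLayout_congr (glued_cg _ _ _) hg (h1.mpr (hasLayout_congr hg' (glued_cg _ _ _) hl))

/-- Associativity of gluing. -/
theorem Glued.assoc {Y : Type} {G : SimpleGraph X} {G1 : SimpleGraph V} {G2 : SimpleGraph W}
    {i : V → X} {j : W → X} {r : V → W → Prop} (h : Glued G G1 G2 i j r) (G3 : SimpleGraph Y)
    (s : X → Y → Prop) :
    Glued (cg G G3 s) G1 (cg G2 G3 (fun w y => s (j w) y)) (fun v => Sum.inl (i v))
      (Sum.map j id) (fun v x => Sum.elim (fun w => r v w) (fun y => s (i v) y) x) where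
  inj1 := fun a b hab => h.inj1 (Sum.inl_injective hab)
  inj2 := Function.Injective.sumMap h.inj2 Function.injective_id
  disj := by
    rintro v (w | y) he
    · exact h.disj v w (Sum.inl_injective he)
    · cases he
  cover := by
    rintro (x | y)
    · rcases h.cover x with ⟨v, rfl⟩ | ⟨w, rfl⟩
      · exact Or.inl ⟨v, rfl⟩
      · exact Or.inr ⟨Sum.inl w, rfl⟩
    · exact Or.inr ⟨Sum.inr y, rfl⟩
  adj1 := fun u v => h.adj1 u v
  adj2 := by
    rintro (u | u) (v | v)
    · exact h.adj2 u v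
    · exact Iff.rfl
    · exact Iff.rfl
    · exact Iff.rfl
  adj12 := by
    rintro v (w | y)
    · exact h.adj12 v w
    · exact Iff.rfl

/-- Replacing the first part. -/
theorem Eqv.glue1 {G1 : SimpleGraph V} {lam1 : V → L} {G1' : SimpleGraph V'} {lam1' : V' → L}
    (h : Eqv c G1 lam1 G1' lam1') {G : SimpleGraph X} {G' : SimpleGraph X'} {G2 : SimpleGraph W}
    {lam2 : W → M} {i : V → X} {j : W → X} {i' : V' → X'} {j' : W → X'} {s : L → M → Prop}
    {N : Type} {lam : X → N} {lam' : X' → N} {f1 : L → N} {f2 : M → N}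
    (hg : Glued G G1 G2 i j (fun v w => s (lam1 v) (lam2 w)))
    (hg' : Glued G' G1' G2 i' j' (fun v w => s (lam1' v) (lam2 w)))
    (h1 : ∀ v, lam (i v) = f1 (lam1 v)) (h2 : ∀ w, lam (j w) = f2 (lam2 w))
    (h1' : ∀ v, lam' (i' v) = f1 (lam1' v)) (h2' : ∀ w, lam' (j' w) = f2 (lam2 w)) :
    Eqv c G lam G' lam' := by
  intro Y G3 lam3
  have e1 := hg.assoc G3 (fun x y => lam x ∈ lam3 y)
  have e2 := hg'.assoc G3 (fun x y => lam' x ∈ lam3 y)
  simp only [h1, h2] at e1
  simp only [h1', h2'] at e2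
  exact h.use (r := fun l x => Sum.elim (fun w => s l (lam2 w)) (fun y => f1 l ∈ lam3 y) x) e1 e2

/-- The equivalence is a congruence. -/
theorem Eqv.glue {W' : Type} {G1 : SimpleGraph V} {lam1 : V → L} {G1' : SimpleGraph V'}
    {lam1' : V' → L} {G2 : SimpleGraph W} {lam2 : W → M} {G2' : SimpleGraph W'} {lam2' : W' → M}
    (h : Eqv c G1 lam1 G1' lam1') (hh : Eqv c G2 lam2 G2' lam2')
    {G : SimpleGraph X} {G' : SimpleGraph X'} {i : V → X} {j : W → X} {i' : V' → X'}
    {j' : W' → X'} {s : L → M → Prop}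
    {N : Type} {lam : X → N} {lam' : X' → N} {f1 : L → N} {f2 : M → N}
    (hg : Glued G G1 G2 i j (fun v w => s (lam1 v) (lam2 w)))
    (hg' : Glued G' G1' G2' i' j' (fun v w => s (lam1' v) (lam2' w)))
    (h1 : ∀ v, lam (i v) = f1 (lam1 v)) (h2 : ∀ w, lam (j w) = f2 (lam2 w))
    (h1' : ∀ v, lam' (i' v) = f1 (lam1' v)) (h2' : ∀ w, lam' (j' w) = f2 (lam2' w)) :
    Eqv c G lam G' lam' := by
  have e0 := glued_cg G1' G2 (fun v w => s (lam1' v) (lam2 w))
  have e1 : Eqv c G lam (cg G1' G2 (fun v w => s (lam1' v) (lam2 w)))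
      (Sum.elim (fun v => f1 (lam1' v)) (fun w => f2 (lam2 w))) :=
    h.glue1 hg e0 h1 h2 (fun _ => rfl) (fun _ => rfl)
  have e2 : Eqv c (cg G1' G2 (fun v w => s (lam1' v) (lam2 w)))
      (Sum.elim (fun v => f1 (lam1' v)) (fun w => f2 (lam2 w))) G' lam' :=
    hh.glue1 (s := fun m l => s l m) (lam2 := lam1') e0.swap hg'.swap (fun _ => rfl)
      (fun _ => rfl) h2' h1'
  exact e1.trans e2

/-- A labelled graph. -/
structure LG (L : Type) where
  V : Type
  G : SimpleGraph V
  lam : V → L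

/-- The equivalence as a setoid. -/
def lgSetoid (c : ℕ) (L : Type) : Setoid (LG L) where
  r a b := Eqv c a.G a.lam b.G b.lam
  iseqv := ⟨fun _ => Eqv.refl _ _, fun h => h.symm, fun h h' => h.trans h'⟩

theorem finite_quotient (hTyp : Typical) (c : ℕ) (L : Type) [Finite L] :
    Finite (Quotient (lgSetoid c L)) := by
  obtain ⟨I, hI, ch, hch⟩ := exists_index hTyp c L
  refine Finite.of_injective
    (fun q : Quotient (lgSetoid c L) => ch q.out.V q.out.G q.out.lam) ?_
  intro a b hab
  simp only at hab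
  rw [← Quotient.out_equiv_out]
  intro W G2 lam2
  exact ⟨hch _ _ _ _ _ _ _ _ _ _ _ _ _ _ _ _ _ (glued_cg _ _ _) (glued_cg _ _ _) hab,
    hch _ _ _ _ _ _ _ _ _ _ _ _ _ _ _ _ _ (glued_cg _ _ _) (glued_cg _ _ _) hab.symm⟩

/-- The finite state machine. -/
theorem exists_machine (hTyp : Typical) (c K : ℕ) :
    ∃ (m : ℕ) (χ : ∀ V : Type, SimpleGraph V → (V → Fin K) → Fin m)
      (δ : Fin m → Fin m → (Fin K → Fin K → Prop) → (Fin K → Fin K) → (Fin K → Fin K) → Fin m)
      (acc : Fin m → Bool),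
      (∀ (X V W : Type) (G : SimpleGraph X) (G1 : SimpleGraph V)
        (G2 : SimpleGraph W) (i : V → X) (j : W → X) (l : X → Fin K) (l1 : V → Fin K)
        (l2 : W → Fin K) (s : Fin K → Fin K → Prop) (φ1 φ2 : Fin K → Fin K),
        Glued G G1 G2 i j (fun v w => s (l1 v) (l2 w)) → (∀ v, l (i v) = φ1 (l1 v)) →
        (∀ w, l (j w) = φ2 (l2 w)) → χ X G l = δ (χ V G1 l1) (χ W G2 l2) s φ1 φ2) ∧
      (∀ (V : Type) (G : SimpleGraph V) (l : V → Fin K),
        HasLayout c G ↔ acc (χ V G l) = true) := by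
  have hfin := finite_quotient hTyp c (Fin K)
  set Qt := Quotient (lgSetoid c (Fin K)) with hQt
  set e : Qt ≃ Fin (Nat.card Qt) := Finite.equivFin Qt with he
  set mk : LG (Fin K) → Qt := fun a => Quotient.mk (lgSetoid c (Fin K)) a with hmk
  have hout : ∀ a : LG (Fin K), Eqv c (mk a).out.G (mk a).out.lam a.G a.lam :=
    fun a => Quotient.exact (Quotient.out_eq (mk a))
  set D : Qt → Qt → (Fin K → Fin K → Prop) → (Fin K → Fin K) → (Fin K → Fin K) → Qt :=
    fun q1 q2 s f1 f2 => mk ⟨_, cg q1.out.G q2.out.G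
      (fun v w => s (q1.out.lam v) (q2.out.lam w)),
      Sum.elim (fun v => f1 (q1.out.lam v)) (fun w => f2 (q2.out.lam w))⟩ with hD
  set A : Qt → Bool := fun q => decide (HasLayout c q.out.G) with hA
  refine ⟨Nat.card Qt, fun V G l => e (mk ⟨V, G, l⟩), fun q1 q2 s f1 f2 =>
    e (D (e.symm q1) (e.symm q2) s f1 f2), fun q => A (e.symm q), ?_, ?_⟩
  · intro X V W G G1 G2 i j l l1 l2 s f1 f2 hg h1 h2
    simp only [Equiv.symm_apply_apply]
    congr 1
    refine Quotient.sound ?_
    have a1 := (hout ⟨V, G1, l1⟩).symm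
    have a2 := (hout ⟨W, G2, l2⟩).symm
    exact a1.glue a2 hg (glued_cg _ _ _) h1 h2 (fun _ => rfl) (fun _ => rfl)
  · intro V G l
    simp only [Equiv.symm_apply_apply]
    rw [hA]
    simp only [decide_eq_true_eq]
    have a1 := (hout ⟨V, G, l⟩).symm
    -- gluing with the empty graph
    have hE : ∀ (U : Type) (H : SimpleGraph U) (lu : U → Fin K),
        Glued H H (⊥ : SimpleGraph Empty) id Empty.elim
          (fun v w => (fun _ _ => False : Fin K → Empty → Prop) (lu v) w) := fun U H lu =>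
      { inj1 := Function.injective_id
        inj2 := fun a => a.elim
        disj := fun _ w => w.elim
        cover := fun x => Or.inl ⟨x, rfl⟩
        adj1 := fun _ _ => Iff.rfl
        adj2 := fun a => a.elim
        adj12 := fun _ w => w.elim }
    exact Eqv.use (r := fun _ _ => False) (G2 := (⊥ : SimpleGraph Empty)) a1
      (hE V G l) (hE _ _ (mk ⟨V, G, l⟩).out.lam)

end Pool.Agent.R545.Lc
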