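import Pool.Agent.R545.Lc.Words

/-!
# Walks: composition, splitting and joining, and finitely many characteristics
-/

namespace Pool.Agent.R545.Lc

open Classical

section Walks

variable {α β γ : Type}

theorem DW.head {S : α → γ → Prop} {a : α} {b : γ} {x : List α} {y : List γ}
    (h : DW S (a :: x) (b :: y)) : S a b := by
  cases h <;> assumption

theorem DW.ne1 {R : α → β → Prop} {x : List α} {y : List β} (h : DW R x y) :
    x ≠ [] := by
  cases h <;> simp

theorem DW.ne2 {R : α → β → Prop} {x : List α} {y : List β} (h : DW R x y) :
    y ≠ [] := by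
  cases h <;> simp

/-- Composition of walks. -/
theorem NW.comp {R : α → β → Prop} {S : α → γ → Prop} {T : γ → β → Prop}
    (hST : ∀ a b c, R a b → S a c → T c b) {x : List α} {y : List β} (h : NW R x y) :
    ∀ z : List γ, DW S x z → NW T z y := by
  induction h with
  | @single a b hab =>
    intro z
    induction z with
    | nil => intro hz; exact absurd rfl hz.ne2
    | cons c z ihz =>
      intro hz
      cases hz with
      | single h => exact NW.single (hST _ _ _ hab h)
      | left h h' => exact absurd rfl h'.ne1
      | right h h' => exact NW.left (hST _ _ _ hab h) (ihz h')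
      | diag h h' => exact absurd rfl h'.ne1
  | @left a b x y hab hw ih =>
    intro z
    induction z with
    | nil => intro hz; exact absurd rfl hz.ne2
    | cons c z ihz =>
      intro hz
      cases hz with
      | single h => exact absurd rfl hw.ne1
      | left h h' => exact ih _ h'
      | right h h' => exact NW.left (hST _ _ _ hab h) (ihz h')
      | diag h h' => exact NW.left (hST _ _ _ hab h) (ih _ h')
  | @right a b x y hab hw ih =>
    intro z hz
    cases z with
    | nil => exact absurd rfl hz.ne2
    | cons c z => exact NW.right (hST _ _ _ hab hz.head) (ih _ hz)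

theorem NW.map_iff {R : γ → β → Prop} (f : α → γ) {x : List α} {y : List β} :
    NW R (x.map f) y ↔ NW (fun a b => R (f a) b) x y := by
  constructor
  · intro h
    generalize hz : x.map f = z at h
    induction h generalizing x with
    | single h =>
      cases x with
      | nil => simp at hz
      | cons a x =>
        simp only [List.map_cons, List.cons.injEq, List.map_eq_nil_iff] at hz
        obtain ⟨rfl, rfl⟩ := hz
        exact NW.single h
    | left h _ ih =>
      cases x with
      | nil => simp at hz
      | cons a x =>
        simp only [List.map_cons, List.cons.injEq] at hz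
        obtain ⟨rfl, hz⟩ := hz
        exact NW.left h (ih hz)
    | right h _ ih =>
      cases x with
      | nil => simp at hz
      | cons a x =>
        have hz' := hz
        simp only [List.map_cons, List.cons.injEq] at hz
        obtain ⟨rfl, -⟩ := hz
        exact NW.right h (ih hz')
  · intro h
    induction h with
    | single h => exact NW.single h
    | left h _ ih => exact NW.left h ih
    | right h _ ih => exact NW.right h ih

theorem NW.imp {R R' : α → β → Prop} {x : List α} {y : List β} (h : NW R x y)
    (hR : ∀ a, ∀ b ∈ y, R a b → R' a b) : NW R' x y := by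
  induction h with
  | single h => exact NW.single (hR _ _ (by simp) h)
  | left h _ ih => exact NW.left (hR _ _ (by simp) h) (ih hR)
  | right h _ ih =>
    exact NW.right (hR _ _ (by simp) h) (ih fun a b hb => hR a b (List.mem_cons_of_mem _ hb))

/-- Splitting a walk. -/
theorem NW.split {R : α → β → Prop} {x : List α} {z : List β} (h : NW R x z) :
    ∀ y1 y2 : List β, z = y1 ++ y2 → y1 ≠ [] → y2 ≠ [] →
      ∃ u a v, x = u ++ a :: v ∧ NW R (u ++ [a]) y1 ∧ NW R (a :: v) y2 := by
  induction h with
  | single h =>
    intro y1 y2 hz h1 h2
    cases y1 with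
    | nil => exact absurd rfl h1
    | cons b y1 =>
      rw [List.cons_append, List.cons.injEq] at hz
      have := hz.2.symm
      rw [List.append_eq_nil_iff] at this
      exact absurd this.2 h2
  | @left a b x y hab hw ih =>
    intro y1 y2 hz h1 h2
    cases y1 with
    | nil => exact absurd rfl h1
    | cons b' y1 =>
      obtain ⟨u, a', v, hx, h3, h4⟩ := ih (b' :: y1) y2 hz (by simp) h2
      rw [List.cons_append, List.cons.injEq] at hz
      obtain ⟨rfl, -⟩ := hz
      refine ⟨a :: u, a', v, by rw [hx]; rfl, NW.left hab h3, h4⟩
  | @right a b x y hab hw ih =>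
    intro y1 y2 hz h1 h2
    cases y1 with
    | nil => exact absurd rfl h1
    | cons b' y1 =>
      rw [List.cons_append, List.cons.injEq] at hz
      obtain ⟨rfl, hz⟩ := hz
      cases y1 with
      | nil =>
        simp only [List.nil_append] at hz
        subst hz
        exact ⟨[], a, x, rfl, NW.single hab, hw⟩
      | cons b1 y1 =>
        obtain ⟨u, a', v, hx, h3, h4⟩ := ih (b1 :: y1) y2 hz (by simp) h2
        refine ⟨u, a', v, hx, ?_, h4⟩
        cases u with
        | nil =>
          simp only [List.nil_append, List.cons.injEq] at hx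
          obtain ⟨rfl, rfl⟩ := hx
          exact NW.right hab h3
        | cons a1 u =>
          simp only [List.cons_append, List.cons.injEq] at hx
          obtain ⟨rfl, rfl⟩ := hx
          exact NW.right hab h3

/-- Joining two walks. -/
theorem NW.join {R : α → β → Prop} {z : List α} {y1 : List β} (h : NW R z y1) {y2 : List β}
    {a : α} {v : List α} (h2 : NW R (a :: v) y2) :
    ∀ u : List α, z = u ++ [a] → NW R (u ++ a :: v) (y1 ++ y2) := by
  induction h with
  | @single a0 b hab =>
    intro u hu
    cases u with
    | nil =>
      simp only [List.nil_append, List.cons.injEq, and_true] at hu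
      subst hu
      exact NW.right hab h2
    | cons a1 u =>
      simp at hu
  | @left a0 b x y hab hw ih =>
    intro u hu
    cases u with
    | nil =>
      simp only [List.nil_append, List.cons.injEq] at hu
      exact absurd hu.2 hw.ne1
    | cons a1 u =>
      simp only [List.cons_append, List.cons.injEq] at hu
      obtain ⟨rfl, hu⟩ := hu
      exact NW.left hab (ih u hu)
  | @right a0 b x y hab hw ih =>
    intro u hu
    have h3 := ih u hu
    cases u with
    | nil =>
      simp only [List.nil_append, List.cons.injEq] at hu
      obtain ⟨rfl, rfl⟩ := hu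
      exact NW.right hab h3
    | cons a1 u =>
      simp only [List.cons_append, List.cons.injEq] at hu
      obtain ⟨rfl, hu⟩ := hu
      exact NW.right hab h3

end Walks

section Char

variable {P Q : Type}

/-- The projection of a word, for the data `e` of the other side; values are cut off at `N`. -/
def proj (N : ℕ) (e : Q) (x : List (P × (Q → ℕ))) : List (P × ℕ) :=
  x.map fun p => (p.1, min (p.2 e) N)

/-- The list `x` can be cut into pieces whose projections are equivalent to the given lists. -/
inductive Ch (N : ℕ) : List (P × (Q → ℕ)) → List (Q × List (P × ℕ)) → Prop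
  | one {x : List (P × (Q → ℕ))} {e : Q} {ρ : List (P × ℕ)} : Eqw (proj N e x) ρ →
      Ch N x [(e, ρ)]
  | cons {u v : List (P × (Q → ℕ))} {a : P × (Q → ℕ)} {e : Q} {ρ : List (P × ℕ)}
      {t : List (Q × List (P × ℕ))} : Eqw (proj N e (u ++ [a])) ρ → Ch N (a :: v) t →
      Ch N (u ++ a :: v) ((e, ρ) :: t)

theorem Ch.ne {N : ℕ} {x : List (P × (Q → ℕ))} {t : List (Q × List (P × ℕ))} (h : Ch N x t) :
    t ≠ [] := by
  cases h <;> simp

/-- The general form of the condition on pairs of letters. -/
def okG (c : ℕ) (o : P → Q → ℕ) (a : P × (Q → ℕ)) (b : Q × (P → ℕ)) : Prop :=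
  a.2 b.1 + b.2 a.1 ≤ c + o a.1 b.1

/-- The condition for a projected letter. -/
def okp (c : ℕ) (o : P → Q → ℕ) (e : Q) (a : P × ℕ) (b : Q × (P → ℕ)) : Prop :=
  a.2 + b.2 a.1 ≤ c + o a.1 e

theorem okp_proj {c N : ℕ} {o : P → Q → ℕ} (hN : ∀ p q, c + o p q < N) {e : Q}
    {x : List (P × (Q → ℕ))} {y : List (Q × (P → ℕ))} (hy : ∀ b ∈ y, b.1 = e) :
    NW (okG c o) x y ↔ NW (okp c o e) (proj N e x) y := by
  unfold proj
  rw [NW.map_iff]
  constructor
  · intro h
    refine h.imp fun a b hb hab => ?_
    have hb' := hy b hb
    unfold okG at hab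
    unfold okp
    simp only
    rw [hb'] at hab
    have := min_le_left (a.2 e) N
    omega
  · intro h
    refine h.imp fun a b hb hab => ?_
    have hb' := hy b hb
    unfold okp at hab
    unfold okG
    simp only at hab
    rw [hb']
    have h1 := hN a.1 e
    rcases le_total (a.2 e) N with h2 | h2
    · rw [min_eq_left h2] at hab
      exact hab
    · rw [min_eq_right h2] at hab
      omega

theorem okp_eqw {c : ℕ} {o : P → Q → ℕ} {e : Q} {x x' : List (P × ℕ)}
    {y : List (Q × (P → ℕ))} (h : NW (okp c o e) x y) (hx : DW dm x x') :
    NW (okp c o e) x' y := by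
  refine h.comp (S := dm) ?_ x' hx
  rintro a b d hab ⟨h1, h2⟩
  unfold okp at hab ⊢
  rw [← h1]
  omega

/-- Words with monotone first components. -/
def Mono {δ ε : Type} [PartialOrder δ] (x : List (δ × ε)) : Prop :=
  (x.map Prod.fst).Pairwise (· ≤ ·)

theorem Mono.sublist {δ ε : Type} [PartialOrder δ] {x x' : List (δ × ε)} (h : Mono x)
    (hs : x'.Sublist x) : Mono x' :=
  List.Pairwise.sublist (hs.map _) h

theorem exists_char {c N : ℕ} [PartialOrder P] [PartialOrder Q] {o : P → Q → ℕ}
    (hN : ∀ p q, c + o p q < N) {T : Set (List (P × ℕ))}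
    (hT : ∀ x : List (P × ℕ), x ≠ [] → Mono x → (∀ p ∈ x, p.2 < N + 1) → ∃ y ∈ T, Eqw x y)
    (n : ℕ) : ∀ y : List (Q × (P → ℕ)), y ≠ [] → Mono y →
      (y.map Prod.fst).toFinset.card ≤ n → ∀ x : List (P × (Q → ℕ)), Mono x →
      NW (okG c o) x y → ∃ t : List (Q × List (P × ℕ)), t.length ≤ n ∧ t ≠ [] ∧
        (∀ p ∈ t, p.2 ∈ T) ∧ Ch N x t ∧ ∀ x', Ch N x' t → NW (okG c o) x' y := by
  have hshort : ∀ (e : Q) (x : List (P × (Q → ℕ))), x ≠ [] → Mono x →
      ∃ ρ ∈ T, Eqw (proj N e x) ρ := by
    intro e x hx hm
    refine hT _ ?_ ?_ ?_
    · unfold proj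
      simpa using hx
    · unfold Mono proj at *
      rw [List.map_map]
      exact hm
    · intro p hp
      unfold proj at hp
      rw [List.mem_map] at hp
      obtain ⟨q, _, rfl⟩ := hp
      have := min_le_right (q.2 e) N
      simp only
      omega
  induction n with
  | zero =>
    intro y hy _ hc
    exfalso
    rw [Nat.le_zero, Finset.card_eq_zero, List.toFinset_eq_empty_iff, List.map_eq_nil_iff] at hc
    exact hy hc
  | succ n ih =>
    intro y hy hmy hc x hmx hw
    obtain ⟨b, y', rfl⟩ := List.exists_cons_of_ne_nil hy
    set e := b.1 with he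
    set f : Q × (P → ℕ) → Bool := fun q => decide (q.1 = e) with hf
    set y1 := (b :: y').takeWhile f with hy1
    set y2 := (b :: y').dropWhile f with hy2
    have hsplit : b :: y' = y1 ++ y2 := (List.takeWhile_append_dropWhile).symm
    have hfb : f b = true := by simp [hf, he]
    have hy1c : y1 = b :: y'.takeWhile f := by
      rw [hy1, List.takeWhile_cons_of_pos hfb]
    have hy1e : ∀ q ∈ y1, q.1 = e := by
      intro q hq
      have := List.mem_takeWhile_imp hq
      simpa [hf] using this
    by_cases hy2e : y2 = []
    · have hall : ∀ q ∈ b :: y', q.1 = e := by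
        rw [hsplit, hy2e, List.append_nil]
        exact hy1e
      obtain ⟨ρ, hρT, hρ⟩ := hshort e x hw.ne1 hmx
      refine ⟨[(e, ρ)], by simp, by simp, ?_, Ch.one hρ, ?_⟩
      · intro p hp
        rw [List.mem_singleton] at hp
        rw [hp]
        exact hρT
      · intro x' hx'
        generalize ht : [(e, ρ)] = t at hx'
        cases hx' with
        | one h =>
          rw [List.cons.injEq, Prod.mk.injEq] at ht
          obtain ⟨⟨rfl, rfl⟩, -⟩ := ht
          rw [okp_proj hN hall] at hw ⊢
          exact okp_eqw (okp_eqw hw hρ.1) h.2
        | cons h h' =>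
          rw [List.cons.injEq] at ht
          exact absurd ht.2.symm h'.ne
    · -- `e` does not occur in `y2`
      have hmem2 : ∀ q ∈ y2, q.1 ≠ e := by
        obtain ⟨q0, y2', hy2'⟩ := List.exists_cons_of_ne_nil hy2e
        have hq0 : f q0 = false := by
          have h1 : (b :: y').dropWhile f = q0 :: y2' := hy2'
          have h2 := List.head_dropWhile_not f (l := b :: y') (by rw [h1]; simp)
          simpa [h1] using h2
        have hq0' : q0.1 ≠ e := by simpa [hf] using hq0
        have hbq0 : e ≤ q0.1 := by
          have hm := hmy
          unfold Mono at hm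
          rw [hsplit, hy1c, hy2', List.map_append, List.pairwise_append] at hm
          exact hm.2.2 e (by simp [he]) q0.1 (by simp)
        intro q hq hqe
        rw [hy2', List.mem_cons] at hq
        rcases hq with rfl | hq
        · exact hq0' hqe
        · have hm := hmy
          unfold Mono at hm
          rw [hsplit, hy2', List.map_append, List.pairwise_append] at hm
          have h3 := hm.2.1
          rw [List.map_cons, List.pairwise_cons] at h3
          have h4 := h3.1 q.1 (List.mem_map_of_mem hq)
          rw [hqe] at h4
          exact hq0' (le_antisymm h4 hbq0)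
      have hcard : (y2.map Prod.fst).toFinset.card ≤ n := by
        have hlt : (y2.map Prod.fst).toFinset ⊂ ((b :: y').map Prod.fst).toFinset := by
          refine Finset.ssubset_iff_subset_ne.mpr ⟨?_, ?_⟩
          · rw [hsplit, List.map_append, List.toFinset_append]
            exact Finset.subset_union_right
          · intro heq
            have : e ∈ (y2.map Prod.fst).toFinset := by
              rw [heq]
              simp [he]
            rw [List.mem_toFinset, List.mem_map] at this
            obtain ⟨q, hq, hqe⟩ := this
            exact hmem2 q hq hqe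
        have := Finset.card_lt_card hlt
        omega
      have hm2 : Mono y2 := hmy.sublist (List.dropWhile_sublist _)
      obtain ⟨u, a, v, rfl, hw1, hw2⟩ := hw.split y1 y2 hsplit (by rw [hy1c]; simp) hy2e
      have hmu : Mono (u ++ [a]) := hmx.sublist (by
        rw [List.append_sublist_append_left]
        exact List.Sublist.cons_cons _ (List.nil_sublist _))
      have hmv : Mono (a :: v) := hmx.sublist (List.sublist_append_right _ _)
      obtain ⟨t, ht1, ht2, ht3, ht4, ht5⟩ := ih y2 hy2e hm2 hcard (a :: v) hmv hw2
      obtain ⟨ρ, hρT, hρ⟩ := hshort e (u ++ [a]) hw1.ne1 hmu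
      refine ⟨(e, ρ) :: t, by simpa using ht1, by simp, ?_, Ch.cons hρ ht4, ?_⟩
      · intro p hp
        rw [List.mem_cons] at hp
        rcases hp with rfl | hp
        · exact hρT
        · exact ht3 p hp
      · intro x' hx'
        rw [hsplit]
        generalize ht : (e, ρ) :: t = t' at hx'
        cases hx' with
        | one h =>
          rw [List.cons.injEq] at ht
          exact absurd ht.2 ht2
        | cons h h' =>
          rw [List.cons.injEq, Prod.mk.injEq] at ht
          obtain ⟨⟨rfl, rfl⟩, rfl⟩ := ht
          refine NW.join ?_ (ht5 _ h') _ rfl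
          rw [okp_proj hN hy1e] at hw1 ⊢
          exact okp_eqw (okp_eqw hw1 hρ.1) h.2

end Char

end Pool.Agent.R545.Lc
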