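import Pool.Agent.R545.Lc.Glue

/-!
# Layouts of a glued graph are walks in the words of two layouts
-/

namespace Pool.Agent.R545.Lc

open Classical

variable {V W X L M : Type}

/-- A letter of a word. -/
abbrev Letter (L M : Type) := Dat L M × (Dat M L → ℕ)

/-- The letter of a prefix. -/
noncomputable def node (G : SimpleGraph V) (lam : V → L) (r : L → M → Prop) (A : Set V) :
    Letter L M := (dat G lam r A, fun d => alpha G lam r A d.fut)

/-- The letter of adding the vertex `v` to a prefix. -/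
noncomputable def step (G : SimpleGraph V) (lam : V → L) (r : L → M → Prop) (A : Set V) (v : V) :
    Letter L M :=
  (dat G lam r A, fun d => alpha G lam r A d.fut + (if ImmS G lam r A v d then 0 else 1))

/-- The word of an ordering of the complement of `A`. -/
noncomputable def word (G : SimpleGraph V) (lam : V → L) (r : L → M → Prop) :
    Set V → List V → List (Letter L M)
  | A, [] => [node G lam r A]
  | A, v :: l => node G lam r A :: step G lam r A v :: word G lam r (insert v A) l

/-- The list `l` is an ordering of the complement of `A`. -/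
def Lay : Set V → List V → Prop
  | A, [] => A = Set.univ
  | A, v :: l => v ∉ A ∧ Lay (insert v A) l

/-- The condition on a pair of letters. -/
def okL (c : ℕ) (r : L → M → Prop) (a : Letter L M) (b : Letter M L) : Prop :=
  a.2 b.1 + b.2 a.1 ≤ c + ov r a.1 b.1

theorem okL_swap {c : ℕ} {r : L → M → Prop} {a : Letter L M} {b : Letter M L} :
    okL c (fun m l => r l m) b a ↔ okL c r a b := by
  unfold okL
  rw [ov_swap, add_comm]

theorem NW.swap {α β : Type} {R : α → β → Prop} {x : List α} {y : List β} (h : NW R x y) :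
    NW (fun b a => R a b) y x := by
  induction h with
  | single h => exact NW.single h
  | left h _ ih => exact NW.right h ih
  | right h _ ih => exact NW.left h ih

theorem NW.ne1 {α β : Type} {R : α → β → Prop} {x : List α} {y : List β} (h : NW R x y) :
    x ≠ [] := by
  cases h <;> simp

theorem NW.ne2 {α β : Type} {R : α → β → Prop} {x : List α} {y : List β} (h : NW R x y) :
    y ≠ [] := by
  cases h <;> simp

theorem word_cons (G : SimpleGraph V) (lam : V → L) (r : L → M → Prop) (A : Set V) (l : List V) :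
    ∃ x, word G lam r A l = node G lam r A :: x := by
  cases l with
  | nil => exact ⟨[], rfl⟩
  | cons v l => exact ⟨_, rfl⟩

section

variable {G : SimpleGraph X} {G1 : SimpleGraph V} {G2 : SimpleGraph W} {i : V → X} {j : W → X}
  {lam1 : V → L} {lam2 : W → M} {r : L → M → Prop} {c : ℕ} [Finite X]

theorem okL_node (h : Glued G G1 G2 i j (fun v w => r (lam1 v) (lam2 w))) (A1 : Set V)
    (A2 : Set W) : okL c r (node G1 lam1 r A1) (node G2 lam2 (fun m l => r l m) A2) ↔
      cnt G (i '' A1 ∪ j '' A2) ≤ c := by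
  have h1 := glued_cnt h A1 A2
  unfold okL node
  simp only
  omega

theorem cost_eq (h : Glued G G1 G2 i j (fun v w => r (lam1 v) (lam2 w))) (A1 : Set V)
    (A2 : Set W) (v : V) :
    okL c r (step G1 lam1 r A1 v) (node G2 lam2 (fun m l => r l m) A2) ↔
      cost G (i '' A1 ∪ j '' A2) (i v) ≤ c := by
  have h1 := glued_cnt h A1 A2
  have h2 := glued_imm h A1 A2 v
  unfold okL node step cost
  simp only
  by_cases h3 : Imm G (i '' A1 ∪ j '' A2) (i v)
  · rw [if_pos h3, if_pos (h2.mp h3)]
    omega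
  · rw [if_neg h3, if_neg (fun h4 => h3 (h2.mpr h4))]
    omega

theorem cost_eq' (h : Glued G G1 G2 i j (fun v w => r (lam1 v) (lam2 w))) (A1 : Set V)
    (A2 : Set W) (w : W) :
    okL c r (node G1 lam1 r A1) (step G2 lam2 (fun m l => r l m) A2 w) ↔
      cost G (i '' A1 ∪ j '' A2) (j w) ≤ c := by
  have := cost_eq (c := c) (r := fun m l => r l m) (lam1 := lam2) (lam2 := lam1) h.swap A2 A1 w
  rw [Set.union_comm, ← this]
  exact okL_swap.symm

theorem univ_iff (h : Glued G G1 G2 i j (fun v w => r (lam1 v) (lam2 w))) (A1 : Set V)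
    (A2 : Set W) : i '' A1 ∪ j '' A2 = Set.univ ↔ A1 = Set.univ ∧ A2 = Set.univ := by
  constructor
  · intro h1
    constructor
    · ext v
      rw [← h.mem1 A1 A2, h1]
      simp
    · ext v
      rw [← h.mem2 A1 A2, h1]
      simp
  · rintro ⟨rfl, rfl⟩
    ext x
    rcases h.cover x with ⟨v, rfl⟩ | ⟨w, rfl⟩
    · simp
    · simp

theorem insert_left (A1 : Set V) (A2 : Set W) (v : V) :
    insert (i v) (i '' A1 ∪ j '' A2) = i '' (insert v A1) ∪ j '' A2 := by
  rw [Set.image_insert_eq, Set.insert_union]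

theorem insert_right (A1 : Set V) (A2 : Set W) (w : W) :
    insert (j w) (i '' A1 ∪ j '' A2) = i '' A1 ∪ j '' (insert w A2) := by
  rw [Set.image_insert_eq, Set.union_insert]

theorem walk_of_layout (h : Glued G G1 G2 i j (fun v w => r (lam1 v) (lam2 w))) (l : List X) :
    ∀ (A1 : Set V) (A2 : Set W), GoodL c G (i '' A1 ∪ j '' A2) l →
      ∃ l1 l2, Lay A1 l1 ∧ Lay A2 l2 ∧
        NW (okL c r) (word G1 lam1 r A1 l1) (word G2 lam2 (fun m l => r l m) A2 l2) := by
  induction l with
  | nil =>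
    rintro A1 A2 ⟨h1, h2⟩
    obtain ⟨h3, h4⟩ := (univ_iff h A1 A2).mp h1
    exact ⟨[], [], h3, h4, NW.single ((okL_node h A1 A2).mpr h2)⟩
  | cons x l ih =>
    rintro A1 A2 ⟨h1, h2, h3⟩
    have hok : okL c r (node G1 lam1 r A1) (node G2 lam2 (fun m l => r l m) A2) := by
      rw [okL_node h]
      exact le_trans (Nat.le_add_right _ _) h2
    rcases h.cover x with ⟨v, rfl⟩ | ⟨w, rfl⟩
    · rw [insert_left] at h3
      obtain ⟨l1, l2, h4, h5, h6⟩ := ih _ _ h3
      rw [h.mem1] at h1
      refine ⟨v :: l1, l2, ⟨h1, h4⟩, h5, ?_⟩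
      obtain ⟨y, hy⟩ := word_cons G2 lam2 (fun m l => r l m) A2 l2
      rw [hy] at h6 ⊢
      exact NW.left hok (NW.left ((cost_eq h A1 A2 v).mpr h2) h6)
    · rw [insert_right] at h3
      obtain ⟨l1, l2, h4, h5, h6⟩ := ih _ _ h3
      rw [h.mem2] at h1
      refine ⟨l1, w :: l2, h4, ⟨h1, h5⟩, ?_⟩
      obtain ⟨y, hy⟩ := word_cons G1 lam1 r A1 l1
      rw [hy] at h6 ⊢
      exact NW.right hok (NW.right ((cost_eq' h A1 A2 w).mpr h2) h6)

/-- The list `x` is the word of `l`, or the same without the first letter. -/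
def Suf (G : SimpleGraph V) (lam : V → L) (r : L → M → Prop) (A : Set V) (l : List V)
    (x : List (Letter L M)) : Prop :=
  x = word G lam r A l ∨ ∃ v l', l = v :: l' ∧ x = step G lam r A v :: word G lam r (insert v A) l'

theorem Suf.head {G : SimpleGraph V} {lam : V → L} {r : L → M → Prop} {A : Set V} {l : List V}
    {a : Letter L M} {x : List (Letter L M)} (hs : Suf G lam r A l (a :: x)) :
    a.1 = dat G lam r A ∧ ∀ d, alpha G lam r A d.fut ≤ a.2 d := by
  rcases hs with hs | ⟨v, l', hl, hs⟩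
  · obtain ⟨y, hy⟩ := word_cons G lam r A l
    rw [hy, List.cons.injEq] at hs
    rw [hs.1]
    exact ⟨rfl, fun d => le_rfl⟩
  · rw [List.cons.injEq] at hs
    rw [hs.1]
    exact ⟨rfl, fun d => Nat.le_add_right _ _⟩

theorem Suf.single {G : SimpleGraph V} {lam : V → L} {r : L → M → Prop} {A : Set V} {l : List V}
    {a : Letter L M} (hs : Suf G lam r A l [a]) : l = [] := by
  rcases hs with hs | ⟨v, l', hl, hs⟩
  · cases l with
    | nil => rfl
    | cons v l => simp [word] at hs
  · rw [List.cons.injEq] at hs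
    obtain ⟨y, hy⟩ := word_cons G lam r (insert v A) l'
    rw [hy] at hs
    simp at hs

/-- A step letter which is compatible with some letter of the other side. -/
theorem okL_of_head (h : Glued G G1 G2 i j (fun v w => r (lam1 v) (lam2 w))) {A1 : Set V}
    {A2 : Set W} {a : Letter L M} {b : Letter M L}
    (ha : okL c r a b) (h1 : b.1 = dat G2 lam2 (fun m l => r l m) A2)
    (h2 : ∀ d, alpha G2 lam2 (fun m l => r l m) A2 d.fut ≤ b.2 d) :
    okL c r a (node G2 lam2 (fun m l => r l m) A2) := by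
  unfold okL at ha ⊢
  rw [h1] at ha
  have h3 := h2 a.1
  unfold node
  simp only
  omega

theorem okL_of_head' (h : Glued G G1 G2 i j (fun v w => r (lam1 v) (lam2 w))) {A1 : Set V}
    {A2 : Set W} {a : Letter L M} {b : Letter M L}
    (ha : okL c r a b) (h1 : a.1 = dat G1 lam1 r A1)
    (h2 : ∀ d, alpha G1 lam1 r A1 d.fut ≤ a.2 d) :
    okL c r (node G1 lam1 r A1) b := by
  unfold okL at ha ⊢
  rw [h1] at ha
  have h3 := h2 b.1
  unfold node
  simp only
  omega

theorem layout_of_walk (h : Glued G G1 G2 i j (fun v w => r (lam1 v) (lam2 w)))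
    {x : List (Letter L M)} {y : List (Letter M L)} (hw : NW (okL c r) x y) :
    ∀ (A1 : Set V) (A2 : Set W) (l1 : List V) (l2 : List W), Lay A1 l1 → Lay A2 l2 →
      Suf G1 lam1 r A1 l1 x → Suf G2 lam2 (fun m l => r l m) A2 l2 y →
      ∃ l, GoodL c G (i '' A1 ∪ j '' A2) l := by
  induction hw with
  | @single a b hab =>
    intro A1 A2 l1 l2 hl1 hl2 h1 h2
    have e1 := h1.single
    have e2 := h2.single
    subst e1
    subst e2
    refine ⟨[], (univ_iff h A1 A2).mpr ⟨hl1, hl2⟩, ?_⟩
    rw [← okL_node (r := r) (lam1 := lam1) (lam2 := lam2) h]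
    obtain ⟨h3, h4⟩ := h1.head
    obtain ⟨h5, h6⟩ := h2.head
    exact okL_of_head' (A2 := A2) h (okL_of_head (A1 := A1) h hab h5 h6) h3 h4
  | @left a b x y hab hw ih =>
    intro A1 A2 l1 l2 hl1 hl2 h1 h2
    rcases h1 with h1 | ⟨v, l1', rfl, h1⟩
    · cases l1 with
      | nil =>
        simp only [word, List.cons.injEq] at h1
        exact absurd h1.2 hw.ne1
      | cons v l1 =>
        simp only [word, List.cons.injEq] at h1
        exact ih A1 A2 (v :: l1) l2 hl1 hl2 (Or.inr ⟨v, l1, rfl, h1.2⟩) h2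
    · rw [List.cons.injEq] at h1
      obtain ⟨l, hl⟩ := ih (insert v A1) A2 l1' l2 hl1.2 hl2 (Or.inl h1.2) h2
      refine ⟨i v :: l, ?_, ?_, ?_⟩
      · rw [h.mem1]; exact hl1.1
      · rw [← cost_eq (r := r) (lam1 := lam1) (lam2 := lam2) h]
        obtain ⟨h5, h6⟩ := h2.head
        rw [← h1.1]
        exact okL_of_head (A1 := A1) h hab h5 h6
      · rw [insert_left]; exact hl
  | @right a b x y hab hw ih =>
    intro A1 A2 l1 l2 hl1 hl2 h1 h2
    rcases h2 with h2 | ⟨w, l2', rfl, h2⟩
    · cases l2 with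
      | nil =>
        simp only [word, List.cons.injEq] at h2
        exact absurd h2.2 hw.ne2
      | cons w l2 =>
        simp only [word, List.cons.injEq] at h2
        exact ih A1 A2 l1 (w :: l2) hl1 hl2 h1 (Or.inr ⟨w, l2, rfl, h2.2⟩)
    · rw [List.cons.injEq] at h2
      obtain ⟨l, hl⟩ := ih A1 (insert w A2) l1 l2' hl1 hl2.2 h1 (Or.inl h2.2)
      refine ⟨j w :: l, ?_, ?_, ?_⟩
      · rw [h.mem2]; exact hl2.1
      · rw [← cost_eq' (r := r) (lam1 := lam1) (lam2 := lam2) h]
        obtain ⟨h5, h6⟩ := h1.head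
        rw [← h2.1]
        exact okL_of_head' (A2 := A2) h hab h5 h6
      · rw [insert_right]; exact hl

/-- Layouts of a glued graph correspond to walks. -/
theorem hasLayout_iff (h : Glued G G1 G2 i j (fun v w => r (lam1 v) (lam2 w))) :
    HasLayout c G ↔ ∃ l1 l2, Lay ∅ l1 ∧ Lay ∅ l2 ∧
      NW (okL c r) (word G1 lam1 r ∅ l1) (word G2 lam2 (fun m l => r l m) ∅ l2) := by
  have he : i '' (∅ : Set V) ∪ j '' (∅ : Set W) = ∅ := by simp
  constructor
  · rintro ⟨l, hl⟩
    rw [← he] at hl
    exact walk_of_layout h l ∅ ∅ hl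
  · rintro ⟨l1, l2, h1, h2, h3⟩
    obtain ⟨l, hl⟩ := layout_of_walk h h3 ∅ ∅ l1 l2 h1 h2 (Or.inl rfl) (Or.inl rfl)
    rw [he] at hl
    exact ⟨l, hl⟩

end

end Pool.Agent.R545.Lc
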